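import Mathlib

set_option autoImplicit false

namespace Pool.Agent.Results.MP_b38472_lc.NoConvergence

/-! ### Definitions used in the statement -/

/-- A semimeasure on binary strings. -/
structure IsSemimeasure (M : List Bool → ℝ) : Prop where
  nonneg : ∀ x, 0 ≤ M x
  root : M [] ≤ 1
  split : ∀ x, M (x ++ [false]) + M (x ++ [true]) ≤ M x

/-- `M` is lower semicomputable: `M x` is the limit of a computable family of (nonnegative)
rationals `p x t / (q x t + 1)`, nondecreasing in `t`. (For functions with nonnegative values it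
makes no difference whether negative rationals are allowed: replace them by zero.) -/
def LowerSemicomputable (M : List Bool → ℝ) : Prop :=
  ∃ p q : List Bool → ℕ → ℕ, Computable₂ p ∧ Computable₂ q ∧
    ∀ x, Monotone (fun t => (p x t : ℝ) / (q x t + 1)) ∧
      Filter.Tendsto (fun t => (p x t : ℝ) / (q x t + 1)) Filter.atTop (nhds (M x))

/-- `M` is a universal lower semicomputable semimeasure. -/
structure IsUniversal (M : List Bool → ℝ) : Prop where
  semi : IsSemimeasure M
  lsc : LowerSemicomputable M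
  dom : ∀ ν : List Bool → ℝ, IsSemimeasure ν → LowerSemicomputable ν →
    ∃ c : ℝ, 0 < c ∧ ∀ x, c * ν x ≤ M x

/-- The initial segment of length `n` of an infinite sequence. -/
def seg {α : Type} (X : ℕ → α) (n : ℕ) : List α := (List.range n).map X

/-- The set of infinite binary sequences extending the string `σ`. -/
def cyl (σ : List Bool) : Set (ℕ → Bool) := {X | seg X σ.length = σ}

/-- The uniform (fair coin) measure on infinite binary sequences. -/
noncomputable def coin : MeasureTheory.Measure (ℕ → Bool) :=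
  MeasureTheory.Measure.infinitePi fun _ : ℕ => (PMF.uniformOfFintype Bool).toMeasure

/-- Martin-Löf randomness with respect to the uniform measure: `X` lies outside every effectively
null set, that is, every intersection of a uniformly c.e. sequence of open sets of measure at most
`2⁻ⁿ`. -/
def MLRandom (X : ℕ → Bool) : Prop :=
  ∀ V : ℕ → Set (List Bool), REPred (fun p : ℕ × List Bool => p.2 ∈ V p.1) →
    (∀ n, coin (⋃ σ ∈ V n, cyl σ) ≤ 2⁻¹ ^ n) → ∃ n, X ∉ ⋃ σ ∈ V n, cyl σ

/-! ### Combinators for computable functions -/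

/-- bounded universal quantifier -/
def ball (n : ℕ) (q : ℕ → Bool) : Bool :=
  Nat.rec (motive := fun _ => Bool) true (fun k acc => acc && q k) n

theorem ball_iff (n : ℕ) (q : ℕ → Bool) : ball n q = true ↔ ∀ k < n, q k = true := by
  induction n with
  | zero => simp [ball]
  | succ n ih =>
    have : ball (n + 1) q = (ball n q && q n) := rfl
    rw [this, Bool.and_eq_true, ih]
    constructor
    · rintro ⟨h1, h2⟩ k hk
      rcases Nat.lt_succ_iff_lt_or_eq.1 hk with h | h
      · exact h1 k h
      · exact h ▸ h2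
    · intro h
      exact ⟨fun k hk => h k (Nat.lt_succ_of_lt hk), h n (Nat.lt_succ_self n)⟩

/-- bounded existential quantifier -/
def bex (n : ℕ) (q : ℕ → Bool) : Bool := !(ball n fun k => !(q k))

theorem bex_iff (n : ℕ) (q : ℕ → Bool) : bex n q = true ↔ ∃ k < n, q k = true := by
  unfold bex
  rw [Bool.not_eq_true', ← Bool.not_eq_true, ball_iff]
  push Not
  simp

/-- finite sum of natural numbers -/
def nsum (n : ℕ) (q : ℕ → ℕ) : ℕ :=
  Nat.rec (motive := fun _ => ℕ) 0 (fun k acc => acc + q k) n

theorem nsum_eq (n : ℕ) (q : ℕ → ℕ) : nsum n q = ∑ k ∈ Finset.range n, q k := by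
  induction n with
  | zero => rfl
  | succ n ih => rw [Finset.sum_range_succ, ← ih]; rfl

/-- powers of two, by recursion -/
def pw (n : ℕ) : ℕ := Nat.rec (motive := fun _ => ℕ) 1 (fun _ r => 2 * r) n

theorem pw_eq (n : ℕ) : pw n = 2 ^ n := by
  induction n with
  | zero => rfl
  | succ n ih =>
    have : pw (n + 1) = 2 * pw n := rfl
    rw [this, ih, pow_succ, Nat.mul_comm]

section combinators

variable {α : Type} [Primcodable α]

theorem ball_comp {g : α → ℕ} {q : α → ℕ → Bool}
    (hg : Computable g) (hq : Computable₂ q) : Computable fun a => ball (g a) (q a) := by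
  have h1 : Computable fun p : α × ℕ × Bool => p.2.2 := Computable.snd.comp Computable.snd
  have h2 : Computable fun p : α × ℕ × Bool => q p.1 p.2.1 :=
    hq.comp Computable.fst (Computable.fst.comp Computable.snd)
  have h3 : Computable₂ fun (a : α) (p : ℕ × Bool) => p.2 && q a p.1 :=
    (Primrec.and.to_comp.comp h1 h2).to₂
  exact (Computable.nat_rec hg (Computable.const true) h3).of_eq fun a => rfl

theorem nsum_comp {g : α → ℕ} {q : α → ℕ → ℕ}
    (hg : Computable g) (hq : Computable₂ q) : Computable fun a => nsum (g a) (q a) := by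
  have h1 : Computable fun p : α × ℕ × ℕ => p.2.2 := Computable.snd.comp Computable.snd
  have h2 : Computable fun p : α × ℕ × ℕ => q p.1 p.2.1 :=
    hq.comp Computable.fst (Computable.fst.comp Computable.snd)
  have h3 : Computable₂ fun (a : α) (p : ℕ × ℕ) => p.2 + q a p.1 :=
    (Primrec.nat_add.to_comp.comp h1 h2).to₂
  exact (Computable.nat_rec hg (Computable.const 0) h3).of_eq fun a => rfl

theorem search {q : α → ℕ → Bool} (hq : Computable₂ q)
    (H : ∀ a, ∃ n, q a n = true) : ∃ F : α → ℕ, Computable F ∧ ∀ a, q a (F a) = true := by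
  classical
  have hP : ComputablePred (fun p : α × ℕ => q p.1 p.2 = true) :=
    Computable.computablePred (by
      have : Computable fun p : α × ℕ => q p.1 p.2 := hq
      simpa using this)
  exact ⟨_, Computable.find (P := fun a n => q a n = true) hP H, fun a => Nat.find_spec (H a)⟩

theorem cand {f g : α → Bool} (hf : Computable f) (hg : Computable g) :
    Computable fun a => f a && g a := Primrec.and.to_comp.comp hf hg

theorem cor {f g : α → Bool} (hf : Computable f) (hg : Computable g) :
    Computable fun a => f a || g a := Primrec.or.to_comp.comp hf hg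

theorem cnot {f : α → Bool} (hf : Computable f) : Computable fun a => !(f a) :=
  Primrec.not.to_comp.comp hf

theorem bex_comp {g : α → ℕ} {q : α → ℕ → Bool}
    (hg : Computable g) (hq : Computable₂ q) : Computable fun a => bex (g a) (q a) :=
  cnot (ball_comp hg (cnot (show Computable fun p : α × ℕ => q p.1 p.2 from hq)).to₂)

theorem ceqN {f g : α → ℕ} (hf : Computable f) (hg : Computable g) :
    Computable fun a => decide (f a = g a) := by
  have : Primrec₂ fun m n : ℕ => decide (m = n) := Primrec.eq.decide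
  exact this.to_comp.comp hf hg

theorem ceqL {f g : α → List Bool} (hf : Computable f) (hg : Computable g) :
    Computable fun a => decide (f a = g a) := by
  have : Primrec₂ fun m n : List Bool => decide (m = n) := Primrec.eq.decide
  exact this.to_comp.comp hf hg

theorem clt {f g : α → ℕ} (hf : Computable f) (hg : Computable g) :
    Computable fun a => decide (f a < g a) := by
  have : Primrec₂ fun m n : ℕ => decide (m < n) := Primrec.nat_lt.decide
  exact this.to_comp.comp hf hg

theorem cle {f g : α → ℕ} (hf : Computable f) (hg : Computable g) :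
    Computable fun a => decide (f a ≤ g a) := by
  have : Primrec₂ fun m n : ℕ => decide (m ≤ n) := Primrec.nat_le.decide
  exact this.to_comp.comp hf hg

theorem cadd {f g : α → ℕ} (hf : Computable f) (hg : Computable g) :
    Computable fun a => f a + g a := Primrec.nat_add.to_comp.comp hf hg

theorem csub {f g : α → ℕ} (hf : Computable f) (hg : Computable g) :
    Computable fun a => f a - g a := Primrec.nat_sub.to_comp.comp hf hg

theorem cmul {f g : α → ℕ} (hf : Computable f) (hg : Computable g) :
    Computable fun a => f a * g a := Primrec.nat_mul.to_comp.comp hf hg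

theorem cdiv {f g : α → ℕ} (hf : Computable f) (hg : Computable g) :
    Computable fun a => f a / g a := Primrec.nat_div.to_comp.comp hf hg

theorem cmod {f g : α → ℕ} (hf : Computable f) (hg : Computable g) :
    Computable fun a => f a % g a := Primrec.nat_mod.to_comp.comp hf hg

theorem cpw {f : α → ℕ} (hf : Computable f) : Computable fun a => 2 ^ f a := by
  have h1 : Computable₂ fun (_ : ℕ) (p : ℕ × ℕ) => 2 * p.2 :=
    (Primrec.nat_mul.to_comp.comp (Computable.const 2) (Computable.snd.comp Computable.snd)).to₂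
  have h2 : Computable pw :=
    (Computable.nat_rec Computable.id (Computable.const 1) h1).of_eq fun a => rfl
  exact (h2.comp hf).of_eq fun a => pw_eq (f a)

theorem cite {β : Type} [Primcodable β] {c : α → Bool} {f g : α → β} (hc : Computable c)
    (hf : Computable f) (hg : Computable g) : Computable fun a => bif c a then f a else g a :=
  Computable.cond hc hf hg

theorem clen {f : α → List Bool} (hf : Computable f) : Computable fun a => (f a).length :=
  Computable.list_length.comp hf

theorem cappend {f g : α → List Bool} (hf : Computable f) (hg : Computable g) :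
    Computable fun a => f a ++ g a := Primrec.list_append.to_comp.comp hf hg

theorem ctake {f : α → List Bool} {n : α → ℕ} (hf : Computable f) (hn : Computable n) :
    Computable fun a => (f a).take (n a) := Primrec.list_take.to_comp.comp hn hf

theorem cdrop {f : α → List Bool} {n : α → ℕ} (hf : Computable f) (hn : Computable n) :
    Computable fun a => (f a).drop (n a) := Primrec.list_drop.to_comp.comp hn hf

end combinators

/-! ### Strings -/

theorem seg_length {α : Type} (X : ℕ → α) (n : ℕ) : (seg X n).length = n := by simp [seg]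

theorem seg_succ {α : Type} (X : ℕ → α) (n : ℕ) : seg X (n + 1) = seg X n ++ [X n] := by
  simp [seg, List.range_succ]

theorem seg_get {α : Type} (X : ℕ → α) {n k : ℕ} (h : k < n) : (seg X n)[k]? = some (X k) := by
  simp [seg, h]

theorem seg_mono {α : Type} (X : ℕ → α) {m n : ℕ} (h : m ≤ n) : seg X m <+: seg X n := by
  induction n with
  | zero => rw [Nat.le_zero.1 h]
  | succ n ih =>
    rcases Nat.lt_or_eq_of_le h with h' | rfl
    · rw [seg_succ]
      exact (ih (Nat.lt_succ_iff.1 h')).trans (List.prefix_append _ _)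
    · exact List.prefix_rfl

theorem seg_take {α : Type} (X : ℕ → α) {m n : ℕ} (h : m ≤ n) : (seg X n).take m = seg X m := by
  have := List.prefix_iff_eq_take.1 (seg_mono X h)
  rw [seg_length] at this
  exact this.symm

theorem seg_comp {α β : Type} [Primcodable α] [Primcodable β] {f : α → ℕ → β} {n : α → ℕ}
    (hf : Computable₂ f) (hn : Computable n) : Computable fun a => seg (f a) (n a) := by
  have h1 : Computable₂ fun (a : α) (p : ℕ × List β) => p.2 ++ [f a p.1] := by
    have h0 : Computable fun q : α × ℕ × List β => q.2.2 := Computable.snd.comp Computable.snd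
    have h2 : Computable fun q : α × ℕ × List β => f q.1 q.2.1 :=
      hf.comp Computable.fst (Computable.fst.comp Computable.snd)
    exact (Primrec.list_concat.to_comp.comp h0 h2).to₂
  refine (Computable.nat_rec hn (Computable.const []) h1).of_eq fun a => ?_
  induction n a with
  | zero => rfl
  | succ m ih => rw [seg_succ, ← ih]

/-- the string of length `n` which is the binary expansion of `i` (most significant bit first) -/
def bits (n i : ℕ) : List Bool := seg (fun k => decide (i / 2 ^ (n - 1 - k) % 2 = 1)) n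

theorem bits_length (n i : ℕ) : (bits n i).length = n := seg_length _ _

theorem bits_zero (i : ℕ) : bits 0 i = [] := rfl

theorem bits_succ (n i : ℕ) : bits (n + 1) i = bits n (i / 2) ++ [decide (i % 2 = 1)] := by
  unfold bits
  rw [seg_succ]
  have e : n + 1 - 1 - n = 0 := by omega
  rw [e, pow_zero, Nat.div_one]
  congr 1
  unfold seg
  apply List.map_congr_left
  intro k hk
  have hk' := List.mem_range.1 hk
  have e2 : n + 1 - 1 - k = (n - 1 - k) + 1 := by omega
  show decide (i / 2 ^ (n + 1 - 1 - k) % 2 = 1) = decide (i / 2 / 2 ^ (n - 1 - k) % 2 = 1)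
  rw [e2, pow_succ', Nat.div_div_eq_div_mul]

theorem bits_comp {α : Type} [Primcodable α] {n i : α → ℕ} (hn : Computable n)
    (hi : Computable i) : Computable fun a => bits (n a) (i a) := by
  have h1 : Computable fun p : α × ℕ => decide (i p.1 / 2 ^ (n p.1 - 1 - p.2) % 2 = 1) :=
    ceqN (cmod (cdiv (hi.comp Computable.fst) (cpw (csub (csub (hn.comp Computable.fst)
      (Computable.const 1)) Computable.snd))) (Computable.const 2)) (Computable.const 1)
  have h2 : Computable₂ fun (a : α) (k : ℕ) => decide (i a / 2 ^ (n a - 1 - k) % 2 = 1) := h1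
  exact seg_comp h2 hn

theorem bits_append (n m i k : ℕ) (hk : k < 2 ^ m) :
    bits n i ++ bits m k = bits (n + m) (i * 2 ^ m + k) := by
  induction m generalizing k with
  | zero =>
    have : k = 0 := by simpa using hk
    subst this
    simp [bits_zero]
  | succ m ih =>
    rw [bits_succ, ← List.append_assoc, ih (k / 2) (by rw [pow_succ] at hk; omega)]
    rw [show n + (m + 1) = (n + m) + 1 by ring, bits_succ]
    have e0 : i * 2 ^ (m + 1) = 2 * (i * 2 ^ m) := by ring
    have e1 : (i * 2 ^ (m + 1) + k) / 2 = i * 2 ^ m + k / 2 := by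
      rw [e0]; omega
    have e2 : (i * 2 ^ (m + 1) + k) % 2 = k % 2 := by
      rw [e0]; omega
    rw [e1, e2]

theorem bits_take (n m i : ℕ) (h : m ≤ n) : (bits n i).take m = bits m (i / 2 ^ (n - m)) := by
  obtain ⟨c, rfl⟩ : ∃ c, n = m + c := ⟨n - m, by omega⟩
  have e : m + c - m = c := by omega
  rw [e]
  have h1 : i = i / 2 ^ c * 2 ^ c + i % 2 ^ c := by
    have := Nat.div_add_mod i (2 ^ c)
    rw [mul_comm]; exact this.symm
  conv_lhs => rw [h1]
  rw [← bits_append m c _ _ (Nat.mod_lt _ (by positivity))]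
  rw [List.take_left' (bits_length _ _)]

/-- the number whose binary expansion is the string -/
def val (σ : List Bool) : ℕ := σ.foldl (fun acc b => 2 * acc + (bif b then 1 else 0)) 0

theorem val_comp {α : Type} [Primcodable α] {f : α → List Bool} (hf : Computable f) :
    Computable fun a => val (f a) := by
  have h1 : Primrec val := by
    refine Primrec.list_foldl (f := fun σ : List Bool => σ) (g := fun _ => 0)
      (h := fun _ p => 2 * p.1 + (bif p.2 then 1 else 0)) Primrec.id (Primrec.const 0) ?_
    refine Primrec₂.mk ?_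
    refine Primrec.nat_add.comp (Primrec.nat_mul.comp (Primrec.const 2)
      (Primrec.fst.comp Primrec.snd)) ?_
    exact Primrec.cond (Primrec.snd.comp Primrec.snd) (Primrec.const 1) (Primrec.const 0)
  exact h1.to_comp.comp hf

theorem val_append (σ : List Bool) (b : Bool) :
    val (σ ++ [b]) = 2 * val σ + (bif b then 1 else 0) := by
  simp [val, List.foldl_append]

theorem val_lt (σ : List Bool) : val σ < 2 ^ σ.length := by
  induction σ using List.reverseRecOn with
  | nil => simp [val]
  | append_singleton σ b ih =>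
    rw [val_append, List.length_append, List.length_singleton, pow_succ]
    cases b <;> simp <;> omega

theorem bits_val (σ : List Bool) : bits σ.length (val σ) = σ := by
  induction σ using List.reverseRecOn with
  | nil => rfl
  | append_singleton σ b ih =>
    rw [List.length_append, List.length_singleton, bits_succ, val_append]
    have e1 : (2 * val σ + (bif b then 1 else 0)) / 2 = val σ := by cases b <;> simp <;> omega
    have e2 : decide ((2 * val σ + (bif b then 1 else 0)) % 2 = 1) = b := by
      cases b <;> simp <;> omega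
    rw [e1, e2, ih]

theorem val_bits (n i : ℕ) (h : i < 2 ^ n) : val (bits n i) = i := by
  induction n generalizing i with
  | zero =>
    have : i = 0 := by simpa using h
    subst this
    rfl
  | succ n ih =>
    rw [bits_succ, val_append, ih (i / 2) (by rw [pow_succ] at h; omega)]
    rcases Nat.mod_two_eq_zero_or_one i with h1 | h1 <;> simp [h1] <;> omega



/-! ### Transfer of summable weights to a universal semimeasure -/

section transfer

variable (P : ℕ → List Bool → Bool) (u v : ℕ → ℕ)

/-- the string `bits l k` extends `σ` and belongs to the `i`-th family -/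
def sel (σ : List Bool) (i l k : ℕ) : Bool :=
  decide (σ.length ≤ l) && (decide ((bits l k).take σ.length = σ) && P i (bits l k))

/-- a common exponent for the denominators -/
def bigW (t : ℕ) : ℕ := t + nsum t v

/-- numerator of the stage `t` value -/
def num (σ : List Bool) (t : ℕ) : ℕ :=
  nsum t fun i => nsum t fun l => nsum (2 ^ l) fun k =>
    bif sel P σ i l k then 2 ^ (u i + (bigW v t - v i - l)) else 0

/-- the stage `t` value -/
noncomputable def sv (σ : List Bool) (t : ℕ) : ℝ :=
  ∑ i ∈ Finset.range t, ∑ l ∈ Finset.range t, ∑ k ∈ Finset.range (2 ^ l),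
    (if sel P σ i l k = true then (2 : ℝ) ^ (u i) / 2 ^ (v i + l) else 0)

theorem bigW_le {t i l : ℕ} (hi : i < t) (hl : l < t) : v i + l ≤ bigW v t := by
  unfold bigW
  rw [nsum_eq]
  have := Finset.single_le_sum (f := v) (fun _ _ => Nat.zero_le _) (Finset.mem_range.2 hi)
  omega

theorem num_eq (σ : List Bool) (t : ℕ) : (num P u v σ t : ℝ) / 2 ^ (bigW v t) = sv P u v σ t := by
  unfold num sv
  rw [nsum_eq]
  push_cast
  rw [Finset.sum_div]
  refine Finset.sum_congr rfl fun i hi => ?_
  rw [nsum_eq]
  push_cast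
  rw [Finset.sum_div]
  refine Finset.sum_congr rfl fun l hl => ?_
  rw [nsum_eq]
  push_cast
  rw [Finset.sum_div]
  refine Finset.sum_congr rfl fun k _ => ?_
  cases sel P σ i l k
  · simp
  · have h := bigW_le v (Finset.mem_range.1 hi) (Finset.mem_range.1 hl)
    have e : bigW v t = (bigW v t - v i - l) + (v i + l) := by omega
    simp only [cond_true, if_true]
    push_cast
    rw [div_eq_div_iff (by positivity) (by positivity)]
    conv_rhs => rw [e]
    ring

theorem sv_mono (σ : List Bool) : Monotone (sv P u v σ) := by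
  intro s t hst
  unfold sv
  have h0 : ∀ i l k, (0 : ℝ) ≤ (if sel P σ i l k = true then (2 : ℝ) ^ (u i) / 2 ^ (v i + l) else 0) :=
    fun i l k => by split_ifs <;> positivity
  refine (Finset.sum_le_sum fun i _ => Finset.sum_le_sum_of_subset_of_nonneg
    (Finset.range_mono hst) fun l _ _ => Finset.sum_nonneg fun k _ => h0 i l k).trans ?_
  exact Finset.sum_le_sum_of_subset_of_nonneg (Finset.range_mono hst)
    fun i _ _ => Finset.sum_nonneg fun l _ => Finset.sum_nonneg fun k _ => h0 i l k

theorem sv_split (σ : List Bool) (t : ℕ) :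
    sv P u v (σ ++ [false]) t + sv P u v (σ ++ [true]) t ≤ sv P u v σ t := by
  unfold sv
  rw [← Finset.sum_add_distrib]
  refine Finset.sum_le_sum fun i _ => ?_
  rw [← Finset.sum_add_distrib]
  refine Finset.sum_le_sum fun l _ => ?_
  rw [← Finset.sum_add_distrib]
  refine Finset.sum_le_sum fun k _ => ?_
  have h1 : ∀ b, sel P (σ ++ [b]) i l k = true → sel P σ i l k = true ∧ (bits l k)[σ.length]? = some b := by
    intro b hb
    unfold sel at hb ⊢
    simp only [Bool.and_eq_true, decide_eq_true_eq, List.length_append, List.length_singleton]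
      at hb ⊢
    obtain ⟨h1, h2, h3⟩ := hb
    refine ⟨⟨by omega, ?_, h3⟩, ?_⟩
    · have := congrArg (List.take σ.length) h2
      rw [List.take_take, min_eq_left (by omega), List.take_left'] at this
      · exact this
      · rfl
    · have := congrArg (fun z => z[σ.length]?) h2
      simp only [List.getElem?_take, lt_add_one, if_true] at this
      rw [this]
      simp
  have hp : (0 : ℝ) ≤ (2 : ℝ) ^ (u i) / 2 ^ (v i + l) := by positivity
  by_cases ha : sel P (σ ++ [false]) i l k = true
  · have hb : ¬ sel P (σ ++ [true]) i l k = true := by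
      intro hb
      have := (h1 _ ha).2.symm.trans (h1 _ hb).2
      simp at this
    rw [if_pos ha, if_neg hb, if_pos (h1 _ ha).1]
    simp
  · rw [if_neg ha, zero_add]
    by_cases hb : sel P (σ ++ [true]) i l k = true
    · rw [if_pos hb, if_pos (h1 _ hb).1]
    · rw [if_neg hb]
      split_ifs
      · exact hp
      · exact le_rfl

theorem sv_nonneg (σ : List Bool) (t : ℕ) : 0 ≤ sv P u v σ t :=
  Finset.sum_nonneg fun i _ => Finset.sum_nonneg fun l _ => Finset.sum_nonneg fun k _ => by
    split_ifs <;> positivity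

theorem sv_le (σ : List Bool) (t : ℕ) : sv P u v σ t ≤ sv P u v [] t := by
  unfold sv
  refine Finset.sum_le_sum fun i _ => Finset.sum_le_sum fun l _ => Finset.sum_le_sum fun k _ => ?_
  by_cases ha : sel P σ i l k = true
  · have : sel P [] i l k = true := by
      unfold sel at ha ⊢
      simp only [Bool.and_eq_true, decide_eq_true_eq] at ha ⊢
      exact ⟨Nat.zero_le _, by simp, ha.2.2⟩
    rw [if_pos ha, if_pos this]
  · rw [if_neg ha]
    split_ifs <;> positivity

end transfer

/-- Transfer from uniformly decidable families of strings with summable weights to the universal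
semimeasure. -/
theorem lemmaD {M : List Bool → ℝ} (hM : IsUniversal M) (P : ℕ → List Bool → Bool)
    (hP : Computable₂ P) (u v : ℕ → ℕ) (hu : Computable u) (hv : Computable v)
    (hsum : ∀ t, ∑ i ∈ Finset.range t, ∑ l ∈ Finset.range t, ∑ k ∈ Finset.range (2 ^ l),
      (if P i (bits l k) = true then (2 : ℝ) ^ (u i) / 2 ^ (v i + l) else 0) ≤ 1) :
    ∃ c : ℝ, 0 < c ∧ ∀ i y, P i y = true → c * (2 ^ (u i) / 2 ^ (v i + y.length)) ≤ M y := by
  have hroot : ∀ t, sv P u v [] t ≤ 1 := by
    intro t
    refine le_trans (le_of_eq ?_) (hsum t)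
    unfold sv
    refine Finset.sum_congr rfl fun i _ => Finset.sum_congr rfl fun l _ =>
      Finset.sum_congr rfl fun k _ => ?_
    have : sel P [] i l k = P i (bits l k) := by
      unfold sel
      simp
    rw [this]
  have hbdd : ∀ σ, BddAbove (Set.range (sv P u v σ)) := by
    intro σ
    refine ⟨1, ?_⟩
    rintro _ ⟨t, rfl⟩
    exact (sv_le P u v σ t).trans (hroot t)
  have htend : ∀ σ, Filter.Tendsto (sv P u v σ) Filter.atTop (nhds (⨆ t, sv P u v σ t)) :=
    fun σ => tendsto_atTop_ciSup (sv_mono P u v σ) (hbdd σ)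
  have hsemi : IsSemimeasure fun σ => ⨆ t, sv P u v σ t := by
    refine ⟨fun σ => ?_, ?_, fun σ => ?_⟩
    · exact (sv_nonneg P u v σ 0).trans (le_ciSup (hbdd σ) 0)
    · exact ciSup_le hroot
    · have h1 := (htend (σ ++ [false])).add (htend (σ ++ [true]))
      exact le_of_tendsto_of_tendsto' h1 (htend σ) fun t => sv_split P u v σ t
  have hW : Computable (bigW v) := by
    have h1 : Computable₂ fun (_ : ℕ) (k : ℕ) => v k :=
      (show Computable fun p : ℕ × ℕ => v p.2 from hv.comp Computable.snd)
    exact cadd Computable.id (nsum_comp Computable.id h1)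
  have hlsc : LowerSemicomputable fun σ => ⨆ t, sv P u v σ t := by
    refine ⟨num P u v, fun _ t => 2 ^ (bigW v t) - 1, ?_, ?_, fun σ => ?_⟩
    · -- computability of the numerator
      have hsel : Computable fun p : (((List Bool × ℕ) × ℕ) × ℕ) × ℕ =>
          sel P p.1.1.1.1 p.1.1.2 p.1.2 p.2 := by
        have hσ : Computable fun p : (((List Bool × ℕ) × ℕ) × ℕ) × ℕ => p.1.1.1.1 :=
          Computable.fst.comp (Computable.fst.comp (Computable.fst.comp Computable.fst))
        have hi : Computable fun p : (((List Bool × ℕ) × ℕ) × ℕ) × ℕ => p.1.1.2 :=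
          Computable.snd.comp (Computable.fst.comp Computable.fst)
        have hl : Computable fun p : (((List Bool × ℕ) × ℕ) × ℕ) × ℕ => p.1.2 :=
          Computable.snd.comp Computable.fst
        have hk : Computable fun p : (((List Bool × ℕ) × ℕ) × ℕ) × ℕ => p.2 := Computable.snd
        have hb := bits_comp hl hk
        exact cand (cle (clen hσ) hl) (cand (ceqL (ctake hb (clen hσ)) hσ) (hP.comp hi hb))
      have hterm : Computable fun p : (((List Bool × ℕ) × ℕ) × ℕ) × ℕ =>
          bif sel P p.1.1.1.1 p.1.1.2 p.1.2 p.2 then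
            2 ^ (u p.1.1.2 + (bigW v p.1.1.1.2 - v p.1.1.2 - p.1.2)) else 0 := by
        have ht : Computable fun p : (((List Bool × ℕ) × ℕ) × ℕ) × ℕ => p.1.1.1.2 :=
          Computable.snd.comp (Computable.fst.comp (Computable.fst.comp Computable.fst))
        have hi : Computable fun p : (((List Bool × ℕ) × ℕ) × ℕ) × ℕ => p.1.1.2 :=
          Computable.snd.comp (Computable.fst.comp Computable.fst)
        have hl : Computable fun p : (((List Bool × ℕ) × ℕ) × ℕ) × ℕ => p.1.2 :=
          Computable.snd.comp Computable.fst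
        exact cite hsel (cpw (cadd (hu.comp hi) (csub (csub (hW.comp ht) (hv.comp hi)) hl)))
          (Computable.const 0)
      have h1 : Computable fun p : ((List Bool × ℕ) × ℕ) × ℕ =>
          nsum (2 ^ p.2) fun k => bif sel P p.1.1.1 p.1.2 p.2 k then
            2 ^ (u p.1.2 + (bigW v p.1.1.2 - v p.1.2 - p.2)) else 0 :=
        nsum_comp (g := fun p : ((List Bool × ℕ) × ℕ) × ℕ => 2 ^ p.2)
          (q := fun p k => bif sel P p.1.1.1 p.1.2 p.2 k then
            2 ^ (u p.1.2 + (bigW v p.1.1.2 - v p.1.2 - p.2)) else 0)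
          (cpw Computable.snd) hterm
      have h2 : Computable fun p : (List Bool × ℕ) × ℕ =>
          nsum p.1.2 fun l => nsum (2 ^ l) fun k => bif sel P p.1.1 p.2 l k then
            2 ^ (u p.2 + (bigW v p.1.2 - v p.2 - l)) else 0 :=
        nsum_comp (g := fun p : (List Bool × ℕ) × ℕ => p.1.2)
          (q := fun p l => nsum (2 ^ l) fun k => bif sel P p.1.1 p.2 l k then
            2 ^ (u p.2 + (bigW v p.1.2 - v p.2 - l)) else 0)
          (Computable.snd.comp Computable.fst) h1
      have h3 : Computable fun p : List Bool × ℕ =>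
          nsum p.2 fun i => nsum p.2 fun l => nsum (2 ^ l) fun k => bif sel P p.1 i l k then
            2 ^ (u i + (bigW v p.2 - v i - l)) else 0 :=
        nsum_comp (g := fun p : List Bool × ℕ => p.2)
          (q := fun p i => nsum p.2 fun l => nsum (2 ^ l) fun k => bif sel P p.1 i l k then
            2 ^ (u i + (bigW v p.2 - v i - l)) else 0)
          Computable.snd h2
      exact h3
    · show Computable fun p : List Bool × ℕ => 2 ^ (bigW v p.2) - 1
      exact csub (cpw (hW.comp Computable.snd)) (Computable.const 1)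
    · have e : (fun t => (num P u v σ t : ℝ) / (((2 ^ (bigW v t) - 1 : ℕ) : ℝ) + 1)) =
          sv P u v σ := by
        funext t
        rw [← num_eq]
        congr 1
        rw [Nat.cast_sub Nat.one_le_two_pow]
        push_cast
        ring
      rw [e]
      exact ⟨sv_mono P u v σ, htend σ⟩
  obtain ⟨c, hc, hdom⟩ := hM.dom _ hsemi hlsc
  refine ⟨c, hc, fun i y hy => le_trans (mul_le_mul_of_nonneg_left ?_ hc.le) (hdom y)⟩
  have h1 : (2 : ℝ) ^ (u i) / 2 ^ (v i + y.length) ≤ sv P u v y (i + y.length + 1) := by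
    have hs : sel P y i y.length (val y) = true := by
      unfold sel
      rw [bits_val]
      simp [hy]
    have h0 : ∀ i l k, (0 : ℝ) ≤ (if sel P y i l k = true then (2 : ℝ) ^ (u i) / 2 ^ (v i + l) else 0) :=
      fun i l k => by split_ifs <;> positivity
    unfold sv
    refine le_trans ?_ (Finset.single_le_sum (fun i _ => Finset.sum_nonneg fun l _ =>
      Finset.sum_nonneg fun k _ => h0 i l k) (Finset.mem_range.2 (show i < i + y.length + 1 by omega)))
    refine le_trans ?_ (Finset.single_le_sum (fun l _ =>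
      Finset.sum_nonneg fun k _ => h0 i l k)
      (Finset.mem_range.2 (show y.length < i + y.length + 1 by omega)))
    refine le_trans ?_ (Finset.single_le_sum (fun k _ => h0 i _ k)
      (Finset.mem_range.2 (val_lt y)))
    rw [if_pos hs]
  exact h1.trans (le_ciSup (hbdd y) _)

section core

/-! ### Mass left of the frontier -/

/-- mass of the maximal dyadic blocks of height less than `k` to the left of `a` (level `n`) -/
noncomputable def LM (f : ℕ → ℕ → ℝ) (n a : ℕ) : ℕ → ℝ
  | 0 => 0
  | k + 1 => (if a % 2 = 1 then f n (a - 1) else 0) + LM f (n - 1) (a / 2) k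

/-- a superadditive nonnegative function on the nodes of the binary tree -/
structure Super (f : ℕ → ℕ → ℝ) (B : ℝ) : Prop where
  nonneg : ∀ n i, 0 ≤ f n i
  split : ∀ n i, f (n + 1) (2 * i) + f (n + 1) (2 * i + 1) ≤ f n i
  bound : ∀ n i, f n i ≤ B / 2 ^ n

variable {f : ℕ → ℕ → ℝ} {B : ℝ}

theorem LM_nonneg (hf : Super f B) (k : ℕ) : ∀ n a, 0 ≤ LM f n a k := by
  induction k with
  | zero => intro n a; exact le_rfl
  | succ k ih =>
    intro n a
    show 0 ≤ (if a % 2 = 1 then f n (a - 1) else 0) + LM f (n - 1) (a / 2) k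
    have h1 := ih (n - 1) (a / 2)
    have h2 := hf.nonneg n (a - 1)
    split_ifs <;> linarith

theorem LM_split (f : ℕ → ℕ → ℝ) (h k : ℕ) : ∀ n a,
    LM f n a (h + k) = LM f n a h + LM f (n - h) (a / 2 ^ h) k := by
  induction h with
  | zero => intro n a; simp [LM]
  | succ h ih =>
    intro n a
    have e1 : h + 1 + k = (h + k) + 1 := by ring
    rw [e1]
    show (if a % 2 = 1 then f n (a - 1) else 0) + LM f (n - 1) (a / 2) (h + k) =
      ((if a % 2 = 1 then f n (a - 1) else 0) + LM f (n - 1) (a / 2) h) +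
        LM f (n - (h + 1)) (a / 2 ^ (h + 1)) k
    rw [ih, Nat.div_div_eq_div_mul, ← pow_succ', Nat.sub_sub, add_comm 1 h]
    ring

theorem LM_le (hf : Super f B) (k : ℕ) : ∀ n a, k ≤ n + 1 →
    LM f n a k ≤ B * ((a % 2 ^ k : ℕ) : ℝ) / 2 ^ n := by
  induction k with
  | zero => intro n a _; simp [LM, Nat.mod_one]
  | succ k ih =>
    intro n a hk
    show (if a % 2 = 1 then f n (a - 1) else 0) + LM f (n - 1) (a / 2) k ≤ _
    have h1 : a % 2 ^ (k + 1) = a % 2 + 2 * ((a / 2) % 2 ^ k) := by
      rw [pow_succ']; exact Nat.mod_mul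
    have hd : (0 : ℝ) < 2 ^ n := by positivity
    rcases Nat.eq_zero_or_pos n with rfl | hn
    · have hk0 : k = 0 := by omega
      subst hk0
      rcases Nat.mod_two_eq_zero_or_one a with h2 | h2
      · simp [h2, LM]
      · simp only [h2, if_true, LM, pow_zero, zero_add, pow_one, Nat.cast_one, mul_one, div_one,
          add_zero]
        simpa using hf.bound 0 (a - 1)
    · have h3 := ih (n - 1) (a / 2) (by omega)
      have h4 : (2 : ℝ) ^ n = 2 * 2 ^ (n - 1) := by
        rw [← pow_succ']; congr 1; omega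
      have h5 : B * ((a % 2 ^ (k + 1) : ℕ) : ℝ) / 2 ^ n =
          B * ((a % 2 : ℕ) : ℝ) / 2 ^ n + B * (((a / 2) % 2 ^ k : ℕ) : ℝ) / 2 ^ (n - 1) := by
        rw [h1, h4]
        push_cast
        field_simp
      rw [h5]
      refine add_le_add ?_ h3
      rcases Nat.mod_two_eq_zero_or_one a with h2 | h2
      · simp [h2]
      · simp only [h2, if_true, Nat.cast_one, mul_one]
        exact hf.bound n (a - 1)

theorem LM_add_one (hf : Super f B) (k : ℕ) : ∀ n a, a % 2 ^ k + 1 < 2 ^ k → k ≤ n + 1 →
    LM f n a k + f n a ≤ LM f n (a + 1) k := by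
  induction k with
  | zero => intro n a h _; simp at h
  | succ k ih =>
    intro n a h hk
    show (if a % 2 = 1 then f n (a - 1) else 0) + LM f (n - 1) (a / 2) k + f n a ≤
      (if (a + 1) % 2 = 1 then f n (a + 1 - 1) else 0) + LM f (n - 1) ((a + 1) / 2) k
    have h1 : a % 2 ^ (k + 1) = a % 2 + 2 * ((a / 2) % 2 ^ k) := by
      rw [pow_succ']; exact Nat.mod_mul
    rw [h1, pow_succ'] at h
    rcases Nat.mod_two_eq_zero_or_one a with h2 | h2
    · have e1 : (a + 1) % 2 = 1 := by omega
      have e2 : (a + 1) / 2 = a / 2 := by omega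
      have e3 : a + 1 - 1 = a := by omega
      rw [if_neg (by omega), if_pos e1, e2, e3]
      linarith
    · have e1 : ¬ (a + 1) % 2 = 1 := by omega
      have e2 : (a + 1) / 2 = a / 2 + 1 := by omega
      rw [if_pos h2, if_neg e1, e2]
      have h3 : (a / 2) % 2 ^ k + 1 < 2 ^ k := by omega
      have hk1 : 1 ≤ k := by
        rcases Nat.eq_zero_or_pos k with rfl | h'
        · simp at h3
        · exact h'
      have hn : 1 ≤ n := by omega
      have h4 := ih (n - 1) (a / 2) h3 (by omega)
      have h5 := hf.split (n - 1) (a / 2)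
      have e3 : n - 1 + 1 = n := by omega
      have e4 : 2 * (a / 2) = a - 1 := by omega
      have e5 : 2 * (a / 2) + 1 = a := by omega
      rw [e3, e5, e4] at h5
      linarith

theorem LM_add (hf : Super f B) {n k : ℕ} (hk : k ≤ n + 1) {v : ℝ} (m : ℕ) : ∀ a,
    a % 2 ^ k + m < 2 ^ k → (∀ i, a ≤ i → i < a + m → v ≤ f n i) →
    LM f n a k + m * v ≤ LM f n (a + m) k := by
  induction m with
  | zero => intro a _ _; simp
  | succ m ih =>
    intro a h1 h2
    have h3 := ih a (by omega) (fun i hi hi' => h2 i hi (by omega))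
    have h4 : (a + m) % 2 ^ k = a % 2 ^ k + m := by
      have h5 : 0 < 2 ^ k := by positivity
      rw [Nat.add_mod, Nat.mod_eq_of_lt (show m < 2 ^ k by omega)]
      exact Nat.mod_eq_of_lt (by omega)
    have h5 := LM_add_one hf k n (a + m) (by rw [h4]; omega) hk
    have h6 := h2 (a + m) (by omega) (by omega)
    push_cast
    have e : a + (m + 1) = a + m + 1 := by ring
    rw [e]
    linarith

theorem LM_total (hf : Super f B) : ∀ n a, a ≤ 2 ^ n → LM f n a (n + 1) ≤ f 0 0 := by
  intro n
  induction n with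
  | zero =>
    intro a ha
    have h0 := hf.nonneg 0 0
    have ha' : a = 0 ∨ a = 1 := by
      have : a ≤ 1 := by simpa using ha
      omega
    rcases ha' with rfl | rfl
    · simpa [LM] using h0
    · simp [LM]
  | succ n ih =>
    intro a ha
    show (if a % 2 = 1 then f (n + 1) (a - 1) else 0) + LM f n (a / 2) (n + 1) ≤ f 0 0
    have ha2 : a ≤ 2 * 2 ^ n := by rw [← pow_succ']; exact ha
    rcases Nat.mod_two_eq_zero_or_one a with h2 | h2
    · rw [if_neg (by omega)]
      have := ih (a / 2) (by omega)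
      linarith
    · rw [if_pos h2]
      have h3 := ih (a / 2 + 1) (by omega)
      have hlt : a / 2 < 2 ^ n := by omega
      have h4 := LM_add_one hf (n + 1) n (a / 2) (by
        rw [Nat.mod_eq_of_lt (show a / 2 < 2 ^ (n + 1) by rw [pow_succ']; omega), pow_succ']
        have : 1 ≤ 2 ^ n := Nat.one_le_two_pow
        omega) le_rfl
      have h5 := hf.split n (a / 2)
      have e4 : 2 * (a / 2) = a - 1 := by omega
      rw [e4] at h5
      have h6 := hf.nonneg (n + 1) (a - 1 + 1)
      linarith

/-- replacing the part of the region inside a block by the whole block -/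
theorem LM_block (hf : Super f B) {n a h k : ℕ} (hh : h ≤ n) (hk : k ≤ n + 1)
    (hhk : h < k) (hlt : (a / 2 ^ h + 1) * 2 ^ h < (a / 2 ^ k + 1) * 2 ^ k) :
    LM f n a k + (f (n - h) (a / 2 ^ h) - B * ((a % 2 ^ h : ℕ) : ℝ) / 2 ^ n) ≤
      LM f n ((a / 2 ^ h + 1) * 2 ^ h) k := by
  obtain ⟨c, rfl⟩ : ∃ c, k = h + c := ⟨k - h, by omega⟩
  rw [LM_split, LM_split]
  have h1 := LM_le hf h n a (by omega)
  have h2 := LM_nonneg hf h n ((a / 2 ^ h + 1) * 2 ^ h)
  have hp : 0 < 2 ^ h := by positivity
  have e1 : (a / 2 ^ h + 1) * 2 ^ h / 2 ^ h = a / 2 ^ h + 1 := Nat.mul_div_cancel _ hp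
  rw [e1]
  have h3 : a / 2 ^ h % 2 ^ c + 1 < 2 ^ c := by
    have e2 : a / 2 ^ (h + c) = a / 2 ^ h / 2 ^ c := by
      rw [pow_add, Nat.div_div_eq_div_mul]
    rw [e2, pow_add] at hlt
    have e3 : a / 2 ^ h + 1 < (a / 2 ^ h / 2 ^ c + 1) * 2 ^ c := by
      have : (a / 2 ^ h + 1) * 2 ^ h < ((a / 2 ^ h / 2 ^ c + 1) * 2 ^ c) * 2 ^ h := by
        calc (a / 2 ^ h + 1) * 2 ^ h < (a / 2 ^ h / 2 ^ c + 1) * (2 ^ h * 2 ^ c) := hlt
          _ = _ := by ring
      exact lt_of_mul_lt_mul_right this (Nat.zero_le _)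
    have e4 := Nat.div_add_mod (a / 2 ^ h) (2 ^ c)
    have e5 : (a / 2 ^ h / 2 ^ c + 1) * 2 ^ c = 2 ^ c * (a / 2 ^ h / 2 ^ c) + 2 ^ c := by ring
    omega
  have h4 := LM_add_one hf c (n - h) (a / 2 ^ h) h3 (by omega)
  linarith

/-! ### The numerical process -/

/-- the value of `f` at the least `k < n` at which it is defined -/
def fs {β : Type} (f : ℕ → Option β) (n : ℕ) : Option β :=
  Nat.rec (motive := fun _ => Option β) none (fun k acc => Option.casesOn acc (f k) some) n

theorem fs_succ {β : Type} (f : ℕ → Option β) (n : ℕ) :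
    fs f (n + 1) = Option.casesOn (fs f n) (f n) some := rfl

theorem fs_some' {β : Type} {f : ℕ → Option β} {n : ℕ} {y : β}
    (hy : fs f n = some y) : ∃ k < n, f k = some y ∧ ∀ l < k, f l = none := by
  induction n with
  | zero => exact absurd hy (by simp [fs])
  | succ n ih =>
    rw [fs_succ] at hy
    rcases h : fs f n with _ | z
    · rw [h] at hy
      refine ⟨n, Nat.lt_succ_self n, hy, ?_⟩
      clear hy ih
      induction n with
      | zero => intro l hl; exact absurd hl (Nat.not_lt_zero l)
      | succ n ih =>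
        rw [fs_succ] at h
        intro l hl
        rcases h' : fs f n with _ | z
        · rw [h'] at h
          rcases Nat.lt_succ_iff_lt_or_eq.1 hl with hl | rfl
          · exact ih h' l hl
          · exact h
        · rw [h'] at h
          exact absurd h (by simp)
    · rw [h] at hy
      have : z = y := Option.some.inj hy
      subst this
      obtain ⟨k, hk, e⟩ := ih h
      exact ⟨k, Nat.lt_succ_of_lt hk, e⟩

theorem fs_none' {β : Type} {f : ℕ → Option β} {n : ℕ} (h : fs f n = none) :
    ∀ k < n, f k = none := by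
  induction n with
  | zero => intro l hl; exact absurd hl (Nat.not_lt_zero l)
  | succ n ih =>
    rw [fs_succ] at h
    intro l hl
    rcases h' : fs f n with _ | z
    · rw [h'] at h
      rcases Nat.lt_succ_iff_lt_or_eq.1 hl with hl | rfl
      · exact ih h' l hl
      · exact h
    · rw [h'] at h
      exact absurd h (by simp)

/-- the greatest height `h < n` at which the test `T n h a` is positive -/
def hit (T : ℕ → ℕ → ℕ → Bool) (n a : ℕ) : Option ℕ :=
  fs (fun i => bif T n (n - 1 - i) a then some (n - 1 - i) else none) n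

theorem hit_some {T : ℕ → ℕ → ℕ → Bool} {n a h : ℕ} (e : hit T n a = some h) :
    h < n ∧ T n h a = true ∧ ∀ h', h < h' → h' < n → T n h' a = false := by
  obtain ⟨k, hk, e1, e2⟩ := fs_some' e
  rcases hT : T n (n - 1 - k) a with _ | _
  · rw [hT] at e1; exact absurd e1 (by simp)
  · rw [hT] at e1
    have e3 : n - 1 - k = h := by simpa using e1
    subst e3
    refine ⟨by omega, hT, fun h' h1 h2 => ?_⟩
    have e4 := e2 (n - 1 - h') (by omega)
    have e5 : n - 1 - (n - 1 - h') = h' := by omega
    rw [e5] at e4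
    rcases hT' : T n h' a with _ | _
    · rfl
    · rw [hT'] at e4; exact absurd e4 (by simp)

theorem hit_none {T : ℕ → ℕ → ℕ → Bool} {n a : ℕ} (e : hit T n a = none) :
    ∀ h < n, T n h a = false := by
  intro h hh
  have e4 := fs_none' e (n - 1 - h) (by omega)
  have e5 : n - 1 - (n - 1 - h) = h := by omega
  rw [e5] at e4
  rcases hT' : T n h a with _ | _
  · rfl
  · rw [hT'] at e4; exact absurd e4 (by simp)

/-- one step of the process: from level `n` to level `n + 1`; the frontier is `8 * u` -/
def nxt (T : ℕ → ℕ → ℕ → Bool) (n : ℕ) (s : ℕ × Bool) : ℕ × Bool :=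
  bif s.2 then s
  else Option.casesOn (hit T (n + 1) (16 * s.1)) (2 * s.1, false) fun h =>
    (2 * s.1 + (2 ^ h - (16 * s.1) % 2 ^ h),
      !(decide (32 * (2 * s.1 + (2 ^ h - (16 * s.1) % 2 ^ h)) ≤ 2 ^ (n + 1))))

/-- the states of the process -/
def st (T : ℕ → ℕ → ℕ → Bool) (n : ℕ) : ℕ × Bool :=
  Nat.rec (motive := fun _ => ℕ × Bool) (0, false) (fun k s => nxt T k s) n

/-- the interval of the pieces produced at level `n + 1` -/
def rng (T : ℕ → ℕ → ℕ → Bool) (n : ℕ) (s : ℕ × Bool) : ℕ × ℕ :=
  bif s.2 then (0, 0)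
  else Option.casesOn (hit T (n + 1) (16 * s.1)) (0, 0) fun h =>
    bif decide (32 * (2 * s.1 + (2 ^ h - (16 * s.1) % 2 ^ h)) ≤ 2 ^ (n + 1)) then
      (16 * s.1 + (2 ^ h - (16 * s.1) % 2 ^ h),
        16 * s.1 + (2 ^ h - (16 * s.1) % 2 ^ h) + 7 * (2 ^ h - (16 * s.1) % 2 ^ h))
    else (2 ^ n, 2 ^ n + (2 ^ n - 14 * s.1))

variable {T : ℕ → ℕ → ℕ → Bool}

theorem st_succ (n : ℕ) : st T (n + 1) = nxt T n (st T n) := rfl

/-- the three possible steps -/
theorem st_cases {n u : ℕ} (hs : st T n = (u, false)) :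
    (hit T (n + 1) (16 * u) = none ∧ st T (n + 1) = (2 * u, false) ∧
      rng T n (st T n) = (0, 0)) ∨
    (∃ h s, hit T (n + 1) (16 * u) = some h ∧ s = 2 ^ h - (16 * u) % 2 ^ h ∧
      32 * (2 * u + s) ≤ 2 ^ (n + 1) ∧ st T (n + 1) = (2 * u + s, false) ∧
      rng T n (st T n) = (16 * u + s, 16 * u + s + 7 * s)) ∨
    (∃ h s, hit T (n + 1) (16 * u) = some h ∧ s = 2 ^ h - (16 * u) % 2 ^ h ∧
      2 ^ (n + 1) < 32 * (2 * u + s) ∧ st T (n + 1) = (2 * u + s, true) ∧
      rng T n (st T n) = (2 ^ n, 2 ^ n + (2 ^ n - 14 * u))) := by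
  rw [st_succ, hs]
  unfold nxt rng
  rcases e : hit T (n + 1) (16 * u) with _ | h
  · left
    refine ⟨rfl, ?_, ?_⟩
    · simp [e]
    · simp [e]
  · right
    by_cases hc : 32 * (2 * u + (2 ^ h - (16 * u) % 2 ^ h)) ≤ 2 ^ (n + 1)
    · left
      refine ⟨h, _, rfl, rfl, hc, ?_, ?_⟩
      · simp [e, hc]
      · simp [e, hc]
    · right
      refine ⟨h, _, rfl, rfl, not_le.1 hc, ?_, ?_⟩
      · simp only [e, cond_false]
        rw [decide_eq_false hc]
        rfl
      · simp only [e, cond_false]
        rw [decide_eq_false hc]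
        rfl

theorem block_facts (a h : ℕ) : a + (2 ^ h - a % 2 ^ h) = (a / 2 ^ h + 1) * 2 ^ h ∧
    0 < 2 ^ h - a % 2 ^ h := by
  have hp : 0 < 2 ^ h := by positivity
  have h1 := Nat.mod_lt a hp
  have h2 := Nat.div_add_mod a (2 ^ h)
  constructor
  · have : (a / 2 ^ h + 1) * 2 ^ h = 2 ^ h * (a / 2 ^ h) + 2 ^ h := by ring
    omega
  · omega

/-- geometry of a move: either the new frontier is in the same block of height `k` as the old one,
and then the skipped block is strictly inside, or everything in the new block up to the new frontier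
is filled -/
theorem geom (a h k E a2 : ℕ) (hE : E = (a / 2 ^ h + 1) * 2 ^ h) (h2 : E ≤ a2) :
    (a2 / 2 ^ k = a / 2 ^ k ∧ h < k ∧ E < (a / 2 ^ k + 1) * 2 ^ k) ∨
      (E ≤ a2 / 2 ^ k * 2 ^ k) := by
  have hp : 0 < 2 ^ h := by positivity
  have hpk : 0 < 2 ^ k := by positivity
  have haE : a < E := by
    have := block_facts a h
    omega
  rcases Nat.lt_or_ge h k with hk | hk
  · by_cases hs : a2 / 2 ^ k = a / 2 ^ k
    · left
      refine ⟨hs, hk, ?_⟩
      have h3 : a2 < (a2 / 2 ^ k + 1) * 2 ^ k := by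
        have h4 := Nat.div_add_mod a2 (2 ^ k)
        have h5 := Nat.mod_lt a2 hpk
        have : (a2 / 2 ^ k + 1) * 2 ^ k = 2 ^ k * (a2 / 2 ^ k) + 2 ^ k := by ring
        omega
      rw [← hs]
      omega
    · right
      have h3 : a / 2 ^ k ≤ a2 / 2 ^ k := Nat.div_le_div_right (by omega)
      have h4 : a / 2 ^ k + 1 ≤ a2 / 2 ^ k := by omega
      have h5 : (a / 2 ^ k + 1) * 2 ^ k ≤ a2 / 2 ^ k * 2 ^ k := Nat.mul_le_mul_right _ h4
      refine le_trans ?_ h5
      obtain ⟨c, rfl⟩ : ∃ c, k = h + c := ⟨k - h, by omega⟩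
      have e1 : (a / 2 ^ (h + c) + 1) * 2 ^ (h + c) = ((a / 2 ^ (h + c) + 1) * 2 ^ c) * 2 ^ h := by
        rw [pow_add]; ring
      rw [hE, e1]
      refine Nat.mul_le_mul_right _ ?_
      have e2 : a / 2 ^ (h + c) = a / 2 ^ h / 2 ^ c := by
        rw [pow_add, Nat.div_div_eq_div_mul]
      rw [e2]
      have h6 := Nat.div_add_mod (a / 2 ^ h) (2 ^ c)
      have h7 := Nat.mod_lt (a / 2 ^ h) (show 0 < 2 ^ c by positivity)
      have : (a / 2 ^ h / 2 ^ c + 1) * 2 ^ c = 2 ^ c * (a / 2 ^ h / 2 ^ c) + 2 ^ c := by ring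
      omega
  · right
    obtain ⟨c, rfl⟩ : ∃ c, h = k + c := ⟨h - k, by omega⟩
    have e1 : E = ((a / 2 ^ (k + c) + 1) * 2 ^ c) * 2 ^ k := by
      rw [hE, pow_add]; ring
    rw [e1]
    refine Nat.mul_le_mul_right _ ?_
    rw [Nat.le_div_iff_mul_le hpk, ← e1]
    exact h2

/-- The invariant: the mass to the left of the frontier is large in every block. -/
theorem invariant (hf : Super f B) (hB : 0 ≤ B) {r θ : ℝ} (hθ : 0 ≤ θ) (hr : θ / 4 ≤ r)
    (hT : ∀ n h a, h ≤ n → a < 2 ^ n → T (n + 1) h a = true →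
      θ / 4 * B * ((2 ^ h - a % 2 ^ h : ℕ) : ℝ) / 2 ^ (n + 1) ≤
        f (n + 1 - h) (a / 2 ^ h) - B * ((a % 2 ^ h : ℕ) : ℝ) / 2 ^ (n + 1))
    (hP : ∀ n i, (rng T n (st T n)).1 ≤ i → i < (rng T n (st T n)).2 →
      r * B / 2 ^ (n + 1) ≤ f (n + 1) i) :
    ∀ n u, st T n = (u, false) → 32 * u ≤ 2 ^ n ∧
      ∀ k ≤ n, (7 * r + θ / 4) / 8 * B * ((8 * u % 2 ^ k : ℕ) : ℝ) / 2 ^ n ≤
        LM f n (8 * u) k := by
  intro n
  induction n with
  | zero =>
    intro u hu
    have h0 : u = 0 := by
      have : (0, false) = (u, false) := hu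
      exact (Prod.mk.inj this).1.symm
    subst h0
    refine ⟨by simp, fun k hk => ?_⟩
    have : k = 0 := by omega
    subst this
    simp [LM]
  | succ n ih =>
    intro u hu
    rcases hsn : st T n with ⟨u0, b⟩
    cases b
    swap
    · rw [st_succ, hsn] at hu
      exact absurd (Prod.mk.inj (show (u0, true) = (u, false) from hu)).2 (by simp)
    obtain ⟨ih1, ih2⟩ := ih u0 hsn
    -- the refined state satisfies the invariant
    have hB' : 0 ≤ (7 * r + θ / 4) / 8 * B := by
      have : 0 ≤ r := by linarith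
      positivity
    have hpos : (0 : ℝ) < 2 ^ (n + 1) := by positivity
    have href : ∀ k ≤ n + 1, (7 * r + θ / 4) / 8 * B * ((16 * u0 % 2 ^ k : ℕ) : ℝ) / 2 ^ (n + 1) ≤
        LM f (n + 1) (16 * u0) k := by
      intro k hk
      rcases k with _ | k
      · simp [LM, Nat.mod_one]
      · show _ ≤ (if (16 * u0) % 2 = 1 then f (n + 1) (16 * u0 - 1) else 0) +
          LM f n (16 * u0 / 2) k
        have e1 : ¬ (16 * u0) % 2 = 1 := by omega
        have e2 : 16 * u0 / 2 = 8 * u0 := by omega
        rw [if_neg e1, e2, zero_add]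
        refine le_trans (le_of_eq ?_) (ih2 k (by omega))
        have e3 : 16 * u0 % 2 ^ (k + 1) = 2 * (8 * u0 % 2 ^ k) := by
          have : 16 * u0 = 2 * (8 * u0) := by ring
          rw [this, pow_succ']
          exact Nat.mul_mod_mul_left _ _ _
        rw [e3, pow_succ]
        push_cast
        field_simp
    rcases st_cases hsn with ⟨_, h2, _⟩ | ⟨h, s, h1, hs, h2, h3, h4⟩ | ⟨h, s, h1, hs, h2, h3, h4⟩
    · rw [h2] at hu
      have hu' : u = 2 * u0 := (Prod.mk.inj hu).1.symm
      subst hu'
      refine ⟨by rw [pow_succ]; omega, fun k hk => ?_⟩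
      have e : 8 * (2 * u0) = 16 * u0 := by ring
      rw [e]
      exact href k hk
    · rw [h3] at hu
      have hu' : u = 2 * u0 + s := (Prod.mk.inj hu).1.symm
      subst hu'
      refine ⟨h2, fun k hk => ?_⟩
      obtain ⟨hh, hTt, _⟩ := hit_some h1
      obtain ⟨hE, hs0⟩ := block_facts (16 * u0) h
      rw [← hs] at hE hs0
      set E := 16 * u0 + s with hEdef
      have ea2 : 8 * (2 * u0 + s) = E + 7 * s := by rw [hEdef]; ring
      rw [ea2]
      have hPr : ∀ i, E ≤ i → i < E + 7 * s → r * B / 2 ^ (n + 1) ≤ f (n + 1) i := by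
        intro i hi hi'
        refine hP n i ?_ ?_
        · rw [h4]; exact hi
        · rw [h4]; exact hi'
      have hlt16 : 16 * u0 < 2 ^ n := by
        have : 0 < 2 ^ n := by positivity
        omega
      rcases geom (16 * u0) h k E (E + 7 * s) hE (by omega) with ⟨g1, g2, g3⟩ | g
      · have hb := LM_block hf (n := n + 1) (a := 16 * u0) (by omega) (by omega) g2
          (by rw [← hE]; exact g3)
        rw [← hE] at hb
        have hTi := hT n h (16 * u0) (by omega) hlt16 hTt
        rw [← hs] at hTi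
        have hpk : 0 < 2 ^ k := by positivity
        have hmod : E % 2 ^ k + 7 * s = (E + 7 * s) % 2 ^ k ∧
            (E + 7 * s) % 2 ^ k = (16 * u0) % 2 ^ k + 8 * s := by
          have q1 := Nat.div_add_mod (E + 7 * s) (2 ^ k)
          have q2 := Nat.div_add_mod (16 * u0) (2 ^ k)
          have q3 := Nat.div_add_mod E (2 ^ k)
          have q4 : E / 2 ^ k = (16 * u0) / 2 ^ k := by
            apply le_antisymm
            · rw [← g1]; exact Nat.div_le_div_right (by omega)
            · exact Nat.div_le_div_right (by omega)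
          rw [g1] at q1
          rw [q4] at q3
          omega
        have hadd := LM_add hf (n := n + 1) (k := k) (by omega) (v := r * B / 2 ^ (n + 1)) (7 * s)
          E (by rw [hmod.1]; exact Nat.mod_lt _ hpk) hPr
        have h5 := href k hk
        rw [hmod.2]
        have h6 : (7 * r + θ / 4) / 8 * B * ((16 * u0 % 2 ^ k + 8 * s : ℕ) : ℝ) / 2 ^ (n + 1) =
            (7 * r + θ / 4) / 8 * B * ((16 * u0 % 2 ^ k : ℕ) : ℝ) / 2 ^ (n + 1) +
            θ / 4 * B * (s : ℝ) / 2 ^ (n + 1) + ((7 * s : ℕ) : ℝ) * (r * B / 2 ^ (n + 1)) := by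
          push_cast
          field_simp
          ring
        rw [h6]
        linarith
      · have hpk : 0 < 2 ^ k := by positivity
        set z := (E + 7 * s) / 2 ^ k * 2 ^ k with hz
        have hz1 : z + (E + 7 * s) % 2 ^ k = E + 7 * s := by
          have := Nat.div_add_mod (E + 7 * s) (2 ^ k)
          rw [hz, mul_comm]; exact this
        have hz2 : z % 2 ^ k = 0 := by rw [hz]; exact Nat.mul_mod_left _ _
        have hadd := LM_add hf (n := n + 1) (k := k) (by omega) (v := r * B / 2 ^ (n + 1))
          ((E + 7 * s) % 2 ^ k) z (by rw [hz2, zero_add]; exact Nat.mod_lt _ hpk)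
          (fun i hi hi' => hPr i (by omega) (by omega))
        rw [hz1] at hadd
        have h5 := LM_nonneg hf k (n + 1) z
        have h6 : (7 * r + θ / 4) / 8 * B * (((E + 7 * s) % 2 ^ k : ℕ) : ℝ) / 2 ^ (n + 1) ≤
            (((E + 7 * s) % 2 ^ k : ℕ) : ℝ) * (r * B / 2 ^ (n + 1)) := by
          have h7 : (7 * r + θ / 4) / 8 ≤ r := by linarith
          have h8 : (0 : ℝ) ≤ (((E + 7 * s) % 2 ^ k : ℕ) : ℝ) := Nat.cast_nonneg _
          have h9 : (7 * r + θ / 4) / 8 * B * (((E + 7 * s) % 2 ^ k : ℕ) : ℝ) ≤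
              r * B * (((E + 7 * s) % 2 ^ k : ℕ) : ℝ) :=
            mul_le_mul_of_nonneg_right (mul_le_mul_of_nonneg_right h7 hB) h8
          calc _ ≤ r * B * (((E + 7 * s) % 2 ^ k : ℕ) : ℝ) / 2 ^ (n + 1) :=
                div_le_div_of_nonneg_right h9 hpos.le
            _ = _ := by ring
        linarith
    · rw [h3] at hu
      exact absurd (Prod.mk.inj hu).2 (by simp)

/-- If the process stops then the total mass is large. -/
theorem exhausted (hf : Super f B) (hB : 0 ≤ B) {r θ : ℝ} (hθ : 0 ≤ θ) (hr : θ / 4 ≤ r)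
    (hT : ∀ n h a, h ≤ n → a < 2 ^ n → T (n + 1) h a = true →
      θ / 4 * B * ((2 ^ h - a % 2 ^ h : ℕ) : ℝ) / 2 ^ (n + 1) ≤
        f (n + 1 - h) (a / 2 ^ h) - B * ((a % 2 ^ h : ℕ) : ℝ) / 2 ^ (n + 1))
    (hP : ∀ n i, (rng T n (st T n)).1 ≤ i → i < (rng T n (st T n)).2 →
      r * B / 2 ^ (n + 1) ≤ f (n + 1) i) {n u : ℕ} (hu : st T n = (u, false))
    (hend : (st T (n + 1)).2 = true) : (r + θ / 64) * (B / 2) ≤ f 0 0 := by
  obtain ⟨ih1, ih2⟩ := invariant hf hB hθ hr hT hP n u hu
  rcases st_cases hu with ⟨_, h2, _⟩ | ⟨h, s, h1, hs, h2, h3, h4⟩ | ⟨h, s, h1, hs, h2, h3, h4⟩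
  · rw [h2] at hend; exact absurd hend (by simp)
  · rw [h3] at hend; exact absurd hend (by simp)
  obtain ⟨hh, hTt, _⟩ := hit_some h1
  obtain ⟨hE, hs0⟩ := block_facts (16 * u) h
  rw [← hs] at hE hs0
  have hpn : 0 < 2 ^ n := by positivity
  have hlt16 : 16 * u < 2 ^ n := by omega
  have hTi := hT n h (16 * u) (by omega) hlt16 hTt
  rw [← hs] at hTi
  have hpos : (0 : ℝ) < 2 ^ (n + 1) := by positivity
  -- the frontier block ends in the left half
  have hEle : 16 * u + s ≤ 2 ^ n := by
    have h5 : 16 * u / 2 ^ h < 2 ^ (n - h) := by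
      rw [Nat.div_lt_iff_lt_mul (by positivity), ← pow_add]
      have : n - h + h = n := by omega
      rw [this]; exact hlt16
    rw [hE]
    calc (16 * u / 2 ^ h + 1) * 2 ^ h ≤ 2 ^ (n - h) * 2 ^ h := Nat.mul_le_mul_right _ h5
      _ = 2 ^ n := by rw [← pow_add]; congr 1; omega
  have hb := LM_block hf (n := n + 1) (a := 16 * u) (h := h) (k := n + 1 + 1) (by omega) le_rfl
    (by omega) (by
      rw [← hE]
      have h5 : 2 ^ (n + 1 + 1) = 4 * 2 ^ n := by ring
      have h6 : 2 ^ (n + 1 + 1) ≤ (16 * u / 2 ^ (n + 1 + 1) + 1) * 2 ^ (n + 1 + 1) :=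
        Nat.le_mul_of_pos_left _ (Nat.succ_pos _)
      omega)
  rw [← hE] at hb
  -- the old region
  have hold : (7 * r + θ / 4) / 8 * B * (((16 * u : ℕ)) : ℝ) / 2 ^ (n + 1) ≤
      LM f (n + 1) (16 * u) (n + 1 + 1) := by
    show _ ≤ (if (16 * u) % 2 = 1 then f (n + 1) (16 * u - 1) else 0) +
      LM f n (16 * u / 2) (n + 1)
    have e1 : ¬ (16 * u) % 2 = 1 := by omega
    have e2 : 16 * u / 2 = 8 * u := by omega
    rw [if_neg e1, e2, zero_add]
    have h5 := ih2 n le_rfl
    have h6 : 8 * u % 2 ^ n = 8 * u := Nat.mod_eq_of_lt (by omega)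
    rw [h6] at h5
    have h7 : LM f n (8 * u) n ≤ LM f n (8 * u) (n + 1) := by
      rw [LM_split f n 1 n (8 * u)]
      have := LM_nonneg hf 1 (n - n) (8 * u / 2 ^ n)
      linarith
    refine le_trans (le_of_eq ?_) (h5.trans h7)
    rw [pow_succ]
    push_cast
    field_simp
    ring
  -- go to the middle, then add the pieces
  have hmid := LM_add hf (n := n + 1) (k := n + 1 + 1) le_rfl (v := 0) (2 ^ n - (16 * u + s))
    (16 * u + s) (by
      rw [Nat.mod_eq_of_lt (by rw [pow_succ, pow_succ]; omega)]
      rw [pow_succ, pow_succ]; omega) (fun i _ _ => hf.nonneg _ _)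
  have e3 : 16 * u + s + (2 ^ n - (16 * u + s)) = 2 ^ n := by omega
  rw [e3, mul_zero, add_zero] at hmid
  have hend2 := LM_add hf (n := n + 1) (k := n + 1 + 1) le_rfl (v := r * B / 2 ^ (n + 1))
    (2 ^ n - 14 * u) (2 ^ n) (by
      rw [Nat.mod_eq_of_lt (by rw [pow_succ, pow_succ]; omega)]
      rw [pow_succ, pow_succ]; omega) (fun i hi hi' => by
        refine hP n i ?_ ?_
        · rw [h4]; exact hi
        · rw [h4]; exact hi')
  have htot := LM_total hf (n + 1) (2 ^ n + (2 ^ n - 14 * u)) (by rw [pow_succ]; omega)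
  have h8 : ((2 ^ n - 14 * u : ℕ) : ℝ) = 2 ^ n - 14 * (u : ℝ) := by
    rw [Nat.cast_sub (by omega)]
    push_cast
    ring
  rw [h8] at hend2
  have h9 : (2 : ℝ) ^ (n + 1) < 32 * (2 * (u : ℝ) + s) := by exact_mod_cast h2
  -- final computation
  have h10 : (r + θ / 64) * (B / 2) ≤
      (7 * r + θ / 4) / 8 * B * ((16 * u : ℕ) : ℝ) / 2 ^ (n + 1) +
      θ / 4 * B * (s : ℝ) / 2 ^ (n + 1) + (2 ^ n - 14 * (u : ℝ)) * (r * B / 2 ^ (n + 1)) := by
    have h11 : (7 * r + θ / 4) / 8 * B * ((16 * u : ℕ) : ℝ) / 2 ^ (n + 1) +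
        θ / 4 * B * (s : ℝ) / 2 ^ (n + 1) + (2 ^ n - 14 * (u : ℝ)) * (r * B / 2 ^ (n + 1)) =
        B * (θ / 4 * (2 * u + s) + r * 2 ^ n) / 2 ^ (n + 1) := by
      push_cast
      field_simp
      ring
    rw [h11, le_div_iff₀ hpos]
    have h12 : (2 : ℝ) ^ (n + 1) = 2 * 2 ^ n := by rw [pow_succ]; ring
    have h13 : θ / 4 * (2 ^ (n + 1) / 32) ≤ θ / 4 * (2 * (u : ℝ) + s) :=
      mul_le_mul_of_nonneg_left (by linarith) (by linarith)
    have h14 : B * (θ / 4 * (2 ^ (n + 1) / 32) + r * 2 ^ n) ≤
        B * (θ / 4 * (2 * (u : ℝ) + s) + r * 2 ^ n) :=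
      mul_le_mul_of_nonneg_left (by linarith) hB
    refine le_trans (le_of_eq ?_) h14
    rw [h12]
    ring
  linarith



theorem LM_add_le (hf : Super f B) (k : ℕ) : ∀ n a, k ≤ n →
    LM f n a k + f n a ≤ f (n - k) (a / 2 ^ k) := by
  induction k with
  | zero => intro n a _; simp [LM]
  | succ k ih =>
    intro n a hk
    show (if a % 2 = 1 then f n (a - 1) else 0) + LM f (n - 1) (a / 2) k + f n a ≤ _
    have h1 := ih (n - 1) (a / 2) (by omega)
    have h2 := hf.split (n - 1) (a / 2)
    have e1 : n - 1 + 1 = n := by omega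
    rw [e1] at h2
    rw [Nat.sub_sub, Nat.div_div_eq_div_mul, ← pow_succ', add_comm 1 k] at h1
    rcases Nat.mod_two_eq_zero_or_one a with h3 | h3
    · rw [if_neg (by omega)]
      have e2 : 2 * (a / 2) = a := by omega
      have h4 := hf.nonneg n (2 * (a / 2) + 1)
      rw [e2] at h2 h4
      linarith
    · rw [if_pos h3]
      have e2 : 2 * (a / 2) = a - 1 := by omega
      have e3 : 2 * (a / 2) + 1 = a := by omega
      rw [e3, e2] at h2
      linarith

/-! ### Size of the pieces -/

theorem st_bound : ∀ n u, st T n = (u, false) → 32 * u ≤ 2 ^ n := by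
  intro n
  induction n with
  | zero =>
    intro u hu
    have h0 : u = 0 := by
      have : (0, false) = (u, false) := hu
      exact (Prod.mk.inj this).1.symm
    subst h0
    simp
  | succ n ih =>
    intro u hu
    rcases hsn : st T n with ⟨u0, b⟩
    cases b
    swap
    · rw [st_succ, hsn] at hu
      exact absurd (Prod.mk.inj (show (u0, true) = (u, false) from hu)).2 (by simp)
    have ih1 := ih u0 hsn
    rcases st_cases hsn with ⟨_, h2, _⟩ | ⟨h, s, h1, hs, h2, h3, h4⟩ | ⟨h, s, h1, hs, h2, h3, h4⟩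
    · rw [h2] at hu
      have hu' : u = 2 * u0 := (Prod.mk.inj hu).1.symm
      subst hu'
      rw [pow_succ]; omega
    · rw [h3] at hu
      have hu' : u = 2 * u0 + s := (Prod.mk.inj hu).1.symm
      subst hu'
      exact h2
    · rw [h3] at hu
      exact absurd (Prod.mk.inj hu).2 (by simp)

theorem rng_done {n u : ℕ} (h : st T n = (u, true)) : rng T n (st T n) = (0, 0) := by
  rw [h]; rfl

theorem rng_bound (n : ℕ) : (rng T n (st T n)).2 ≤ 2 ^ (n + 1) := by
  rcases hsn : st T n with ⟨u0, b⟩
  cases b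
  swap
  · exact Nat.zero_le _
  have ih1 := st_bound n u0 hsn
  have e : 2 ^ (n + 1) = 2 * 2 ^ n := by rw [pow_succ']
  rcases st_cases hsn with ⟨_, _, h4⟩ | ⟨h, s, h1, hs, h2, h3, h4⟩ | ⟨h, s, h1, hs, h2, h3, h4⟩
  · rw [← hsn, h4]; exact Nat.zero_le _
  · rw [← hsn, h4]
    show 16 * u0 + s + 7 * s ≤ 2 ^ (n + 1)
    omega
  · rw [← hsn, h4]
    show 2 ^ n + (2 ^ n - 14 * u0) ≤ 2 ^ (n + 1)
    omega

theorem cnt_sum : ∀ n, (∀ u, st T n = (u, false) →
    ∑ k ∈ Finset.range n, (((rng T k (st T k)).2 - (rng T k (st T k)).1 : ℕ) : ℝ) / 2 ^ (k + 1) =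
      7 * (u : ℝ) / 2 ^ n) ∧ (∀ u, st T n = (u, true) →
    ∑ k ∈ Finset.range n, (((rng T k (st T k)).2 - (rng T k (st T k)).1 : ℕ) : ℝ) / 2 ^ (k + 1) ≤
      1 / 2) := by
  intro n
  induction n with
  | zero =>
    refine ⟨fun u hu => ?_, fun u hu => ?_⟩
    · have h0 : u = 0 := by
        have : (0, false) = (u, false) := hu
        exact (Prod.mk.inj this).1.symm
      subst h0
      simp
    · simp
  | succ n ih =>
    rw [Finset.sum_range_succ]
    rcases hsn : st T n with ⟨u0, b⟩
    cases b
    swap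
    · have h1 : st T (n + 1) = (u0, true) := by rw [st_succ, hsn]; rfl
      have h2 := rng_done hsn
      rw [hsn] at h2
      rw [h2]
      refine ⟨fun u hu => ?_, fun u _ => ?_⟩
      · rw [h1] at hu
        exact absurd (Prod.mk.inj hu).2 (by simp)
      · have := ih.2 u0 hsn
        simpa using this
    have hb := st_bound n u0 hsn
    have ih1 := ih.1 u0 hsn
    rw [ih1, ← hsn]
    rcases st_cases hsn with ⟨_, h2, h4⟩ | ⟨h, s, h1, hs, h2, h3, h4⟩ | ⟨h, s, h1, hs, h2, h3, h4⟩
    · rw [h4, h2]
      refine ⟨fun u hu => ?_, fun u hu => ?_⟩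
      · have hu' : u = 2 * u0 := (Prod.mk.inj hu).1.symm
        subst hu'
        push_cast
        rw [pow_succ]
        simp only [Nat.cast_zero, sub_zero, CharP.cast_eq_zero, zero_div, add_zero]
        field_simp
      · exact absurd (Prod.mk.inj hu).2 (by simp)
    · rw [h4, h3]
      refine ⟨fun u hu => ?_, fun u hu => ?_⟩
      · have hu' : u = 2 * u0 + s := (Prod.mk.inj hu).1.symm
        subst hu'
        show 7 * (u0 : ℝ) / 2 ^ n + ((16 * u0 + s + 7 * s - (16 * u0 + s) : ℕ) : ℝ) / 2 ^ (n + 1) = _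
        have e : 16 * u0 + s + 7 * s - (16 * u0 + s) = 7 * s := by omega
        rw [e]
        push_cast
        rw [pow_succ]
        field_simp
      · exact absurd (Prod.mk.inj hu).2 (by simp)
    · rw [h4, h3]
      refine ⟨fun u hu => ?_, fun u hu => ?_⟩
      · exact absurd (Prod.mk.inj hu).2 (by simp)
      · show 7 * (u0 : ℝ) / 2 ^ n + ((2 ^ n + (2 ^ n - 14 * u0) - 2 ^ n : ℕ) : ℝ) / 2 ^ (n + 1) ≤ _
        have e : 2 ^ n + (2 ^ n - 14 * u0) - 2 ^ n = 2 ^ n - 14 * u0 := by omega
        rw [e, Nat.cast_sub (by omega)]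
        push_cast
        rw [pow_succ]
        apply le_of_eq
        field_simp
        ring

theorem cnt_sum_le (n : ℕ) :
    ∑ k ∈ Finset.range n, (((rng T k (st T k)).2 - (rng T k (st T k)).1 : ℕ) : ℝ) / 2 ^ (k + 1) ≤
      1 / 2 := by
  rcases hsn : st T n with ⟨u, b⟩
  cases b
  · rw [(cnt_sum n).1 u hsn, div_le_iff₀ (by positivity)]
    have : ((32 * u : ℕ) : ℝ) ≤ ((2 ^ n : ℕ) : ℝ) := by exact_mod_cast st_bound n u hsn
    push_cast at this
    linarith [show (0 : ℝ) ≤ u from Nat.cast_nonneg u]
  · exact (cnt_sum n).2 u hsn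

/-! ### The limit of the frontier -/

/-- A bounded nondecreasing sequence of natural numbers is eventually constant. -/
theorem mono_const {g : ℕ → ℕ} {N0 K : ℕ} (hg : ∀ n, N0 ≤ n → g n ≤ g (n + 1))
    (hb : ∀ n, N0 ≤ n → g n ≤ K) : ∃ c N, N0 ≤ N ∧ ∀ n, N ≤ n → g n = c := by
  classical
  have hne : ∃ c, ∀ n, N0 ≤ n → g n ≤ c := ⟨K, hb⟩
  set c := Nat.find hne with hc
  have h1 := Nat.find_spec hne
  rw [← hc] at h1
  have h2 : ∃ n, N0 ≤ n ∧ c ≤ g n := by
    by_contra hcon
    push Not at hcon
    rcases Nat.eq_zero_or_pos c with h0 | hpos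
    · have := hcon N0 le_rfl
      omega
    · have h3 : ∀ n, N0 ≤ n → g n ≤ c - 1 := fun n hn => by have := hcon n hn; omega
      have := Nat.find_min' hne h3
      omega
  obtain ⟨N, hN, hcN⟩ := h2
  refine ⟨c, N, hN, fun n hn => ?_⟩
  have h3 : g N ≤ g n := by
    induction n, hn using Nat.le_induction with
    | base => exact le_rfl
    | succ n hn ih => exact ih.trans (hg n (by omega))
  have := h1 n (by omega)
  omega

theorem limit (hne : ∀ n, (st T n).2 = false) : ∃ b : ℕ → ℕ,
    (∀ m, b (m + 1) / 2 = b m) ∧ b 0 = 0 ∧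
    (∀ m, ∃ N, ∀ n, N ≤ n → m ≤ n ∧ 8 * (st T n).1 / 2 ^ (n - m) = b m) ∧
    (∀ m, 1 ≤ m → ∃ N, ∀ n, N ≤ n → T (n + 1) (n + 1 - m) (16 * (st T n).1) = false) := by
  have hst : ∀ n, st T n = ((st T n).1, false) := fun n => by
    rw [← hne n]
  have hbd : ∀ n, 32 * (st T n).1 ≤ 2 ^ n := fun n => st_bound n _ (hst n)
  -- one step
  have hstep : ∀ n, 16 * (st T n).1 ≤ 8 * (st T (n + 1)).1 ∧
      ∀ h, h ≤ n → T (n + 1) h (16 * (st T n).1) = true →
        (16 * (st T n).1 / 2 ^ h + 1) * 2 ^ h ≤ 8 * (st T (n + 1)).1 := by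
    intro n
    rcases st_cases (hst n) with ⟨h1, h2, _⟩ | ⟨h, s, h1, hs, h2, h3, h4⟩ |
      ⟨h, s, h1, hs, h2, h3, h4⟩
    · refine ⟨by rw [h2]; show 16 * _ ≤ 8 * (2 * (st T n).1); omega, fun h hh hT => ?_⟩
      have := hit_none h1 h (by omega)
      rw [this] at hT
      exact absurd hT (by simp)
    · obtain ⟨hE, hs0⟩ := block_facts (16 * (st T n).1) h
      rw [← hs] at hE hs0
      have hu : 8 * (st T (n + 1)).1 = 16 * (st T n).1 + 8 * s := by
        rw [h3]; show 8 * (2 * (st T n).1 + s) = _; ring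
      refine ⟨by omega, fun h' hh hT => ?_⟩
      obtain ⟨hh1, hTt, hmax⟩ := hit_some h1
      have hle : h' ≤ h := by
        by_contra hcon
        push Not at hcon
        have := hmax h' hcon (by omega)
        rw [this] at hT
        exact absurd hT (by simp)
      obtain ⟨c, rfl⟩ : ∃ c, h = h' + c := ⟨h - h', by omega⟩
      refine le_trans ?_ (show 16 * (st T n).1 + s ≤ _ by omega)
      have e1 : 16 * (st T n).1 + s =
          ((16 * (st T n).1 / 2 ^ (h' + c) + 1) * 2 ^ c) * 2 ^ h' := by
        rw [hE, pow_add]; ring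
      rw [e1]
      refine Nat.mul_le_mul_right _ ?_
      have e2 : 16 * (st T n).1 / 2 ^ h' < (16 * (st T n).1 / 2 ^ (h' + c) + 1) * 2 ^ c := by
        rw [Nat.div_lt_iff_lt_mul (by positivity), ← e1]
        omega
      omega
    · have := hne (n + 1)
      rw [h3] at this
      exact absurd this (by simp)
  have hex : ∀ m, ∃ c N, m ≤ N ∧ ∀ n, N ≤ n → 8 * (st T n).1 / 2 ^ (n - m) = c := by
    intro m
    refine mono_const (g := fun n => 8 * (st T n).1 / 2 ^ (n - m)) (N0 := m) (K := 2 ^ m)
      (fun n hn => ?_) fun n hn => ?_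
    · have e1 : n + 1 - m = (n - m) + 1 := by omega
      show 8 * (st T n).1 / 2 ^ (n - m) ≤ 8 * (st T (n + 1)).1 / 2 ^ (n + 1 - m)
      rw [e1, pow_succ', ← Nat.div_div_eq_div_mul]
      exact Nat.div_le_div_right (by have := (hstep n).1; omega)
    · show 8 * (st T n).1 / 2 ^ (n - m) ≤ 2 ^ m
      refine Nat.div_le_of_le_mul ?_
      rw [← pow_add]
      have e1 : n - m + m = n := by omega
      rw [e1]
      have := hbd n
      omega
  choose b N hmN hN using hex
  refine ⟨b, fun m => ?_, ?_, fun m => ⟨N m, fun n hn => ⟨(hmN m).trans hn, hN m n hn⟩⟩,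
    fun m hm => ⟨N m, fun n hn => ?_⟩⟩
  · have h1 := hN m (max (N m) (N (m + 1))) (le_max_left _ _)
    have h2 := hN (m + 1) (max (N m) (N (m + 1))) (le_max_right _ _)
    have h3 := hmN (m + 1)
    have h4 : m + 1 ≤ max (N m) (N (m + 1)) := h3.trans (le_max_right _ _)
    rw [← h1, ← h2, Nat.div_div_eq_div_mul, ← pow_succ]
    congr 2
    omega
  · have h1 := hN 0 (N 0) le_rfl
    rw [← h1]
    refine Nat.div_eq_of_lt ?_
    have := hbd (N 0)
    have hp : 0 < 2 ^ (N 0) := by positivity
    rw [Nat.sub_zero]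
    omega
  · by_contra hcon
    have hcon' : T (n + 1) (n + 1 - m) (16 * (st T n).1) = true := by
      simpa using hcon
    have h1 := hN m n hn
    have h2 := hN m (n + 1) (by omega)
    have h3 := hmN m
    have h4 := (hstep n).2 (n + 1 - m) (by omega) hcon'
    have e1 : n + 1 - m = (n - m) + 1 := by omega
    have e2 : 16 * (st T n).1 / 2 ^ (n + 1 - m) = b m := by
      rw [e1, pow_succ', ← Nat.div_div_eq_div_mul, ← h1]
      congr 1
      omega
    rw [e2] at h4
    have h5 : b m + 1 ≤ 8 * (st T (n + 1)).1 / 2 ^ (n + 1 - m) := by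
      rw [Nat.le_div_iff_mul_le (by positivity)]
      exact h4
    omega

end core

/-! ### Bounded sequences are random -/

theorem re_stage_h {V : ℕ → Set (List Bool)}
    (hV : REPred (fun p : ℕ × List Bool => p.2 ∈ V p.1)) :
    ∃ A : (ℕ × List Bool) → ℕ → Bool, Computable₂ A ∧ ∀ p, p.2 ∈ V p.1 ↔ ∃ s, A p s = true := by
  obtain ⟨c, hc⟩ := Nat.Partrec.Code.exists_code.1 hV
  refine ⟨fun p s => (Nat.Partrec.Code.evaln s c (Encodable.encode p)).isSome, ?_, ?_⟩
  · have h1 : Computable fun q : (ℕ × List Bool) × ℕ =>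
        Nat.Partrec.Code.evaln q.2 c (Encodable.encode q.1) := by
      refine Nat.Partrec.Code.primrec_evaln.to_comp.comp ((Computable.snd.pair
        (Computable.const c)).pair ?_)
      exact (Primrec.encode.comp Primrec.fst).to_comp
    exact (Primrec.option_isSome.to_comp.comp h1).to₂
  · intro p
    have h2 : p.2 ∈ V p.1 ↔ ∃ x, x ∈ c.eval (Encodable.encode p) := by
      rw [hc]
      simp [Part.mem_assert_iff]
    rw [h2]
    constructor
    · rintro ⟨x, hx⟩
      obtain ⟨k, hk⟩ := Nat.Partrec.Code.evaln_complete.1 hx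
      exact ⟨k, Option.isSome_iff_exists.2 ⟨x, hk⟩⟩
    · rintro ⟨s, hs⟩
      obtain ⟨x, hx⟩ := Option.isSome_iff_exists.1 hs
      exact ⟨x, Nat.Partrec.Code.evaln_complete.2 ⟨s, hx⟩⟩

instance coin_prob_h : MeasureTheory.IsProbabilityMeasure coin := by
  unfold coin; infer_instance

theorem cyl_eq_h (y : List Bool) :
    cyl y = Set.pi (Finset.range y.length : Set ℕ) (fun i => {y.getD i false}) := by
  ext X
  simp only [cyl, Set.mem_ofPred_eq, Set.mem_pi, Finset.coe_range, Set.mem_Iio,
    Set.mem_singleton_iff]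
  constructor
  · intro h i hi
    have h1 := seg_get X hi
    rw [h] at h1
    rw [List.getD_eq_getElem?_getD, h1]
    rfl
  · intro h
    apply List.ext_getElem
    · rw [seg_length]
    · intro i h1 h2
      have h3 := h i h2
      simp only [seg, List.getElem_map, List.getElem_range]
      rw [h3, List.getD_eq_getElem _ _ h2]

theorem coin_cyl_h (y : List Bool) : coin.real (cyl y) = (1 / 2) ^ y.length := by
  rw [cyl_eq_h, MeasureTheory.measureReal_def, coin, MeasureTheory.Measure.infinitePi_pi]
  · rw [Finset.prod_congr rfl (g := fun _ => (2⁻¹ : ENNReal))]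
    · simp
    · intro i _
      rw [PMF.toMeasure_apply_singleton _ _ (by measurability)]
      simp
  · intro i _
    measurability

theorem meas_cyl_h (y : List Bool) : MeasurableSet (cyl y) := by
  rw [cyl_eq_h]
  exact MeasurableSet.pi (Finset.countable_toSet _) (fun i _ => by measurability)

/-- tests: the string `y` is seen to be covered -/
def RR (A : (ℕ × List Bool) → ℕ → Bool) (i : ℕ) (y : List Bool) : Bool :=
  bex (y.length + 1) fun m => bex (y.length + 1) fun s => A (2 * (i + 1), y.take m) s

theorem RR_iff (A : (ℕ × List Bool) → ℕ → Bool) (i : ℕ) (y : List Bool) :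
    RR A i y = true ↔ ∃ m ≤ y.length, ∃ s ≤ y.length, A (2 * (i + 1), y.take m) s = true := by
  unfold RR
  rw [bex_iff]
  constructor
  · rintro ⟨m, hm, h⟩
    rw [bex_iff] at h
    obtain ⟨s, hs, h⟩ := h
    exact ⟨m, by omega, s, by omega, h⟩
  · rintro ⟨m, hm, s, hs, h⟩
    refine ⟨m, by omega, ?_⟩
    rw [bex_iff]
    exact ⟨s, by omega, h⟩

theorem RR_mono (A : (ℕ × List Bool) → ℕ → Bool) (i : ℕ) (X : ℕ → Bool) {m n : ℕ} (h : m ≤ n)
    (hm : RR A i (seg X m) = true) : RR A i (seg X n) = true := by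
  rw [RR_iff] at hm ⊢
  rw [seg_length] at hm ⊢
  obtain ⟨k, hk, s, hs, h1⟩ := hm
  refine ⟨k, hk.trans h, s, hs.trans h, ?_⟩
  rw [seg_take X (hk.trans h)]
  rw [seg_take X hk] at h1
  exact h1

theorem RR_comp {A : (ℕ × List Bool) → ℕ → Bool} (hA : Computable₂ A) :
    Computable₂ (RR A) := by
  have h1 : Computable fun q : ((ℕ × List Bool) × ℕ) × ℕ =>
      A (2 * (q.1.1.1 + 1), q.1.1.2.take q.1.2) q.2 := by
    refine hA.comp (Computable.pair ?_ ?_) Computable.snd
    · exact cmul (Computable.const 2) (cadd (Computable.fst.comp (Computable.fst.comp Computable.fst))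
        (Computable.const 1))
    · exact ctake (Computable.snd.comp (Computable.fst.comp Computable.fst))
        (Computable.snd.comp Computable.fst)
  have h2 : Computable fun q : (ℕ × List Bool) × ℕ =>
      bex (q.1.2.length + 1) fun s => A (2 * (q.1.1 + 1), q.1.2.take q.2) s :=
    bex_comp (cadd (clen (Computable.snd.comp Computable.fst)) (Computable.const 1)) h1.to₂
  exact (bex_comp (cadd (clen Computable.snd) (Computable.const 1)) h2.to₂).to₂

/-- minimal covered strings -/
def PP (A : (ℕ × List Bool) → ℕ → Bool) (i : ℕ) (y : List Bool) : Bool :=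
  RR A i y && (decide (y.length = 0) || !(RR A i (y.take (y.length - 1))))

theorem PP_comp {A : (ℕ × List Bool) → ℕ → Bool} (hA : Computable₂ A) :
    Computable₂ (PP A) := by
  have h1 := RR_comp hA
  have h2 : Computable fun q : ℕ × List Bool => RR A q.1 (q.2.take (q.2.length - 1)) :=
    h1.comp Computable.fst (ctake Computable.snd (csub (clen Computable.snd) (Computable.const 1)))
  exact (cand (show Computable fun q : ℕ × List Bool => RR A q.1 q.2 from h1)
    (cor (ceqN (clen Computable.snd) (Computable.const 0)) (cnot h2))).to₂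

theorem PP_min (A : (ℕ × List Bool) → ℕ → Bool) (i : ℕ) (X : ℕ → Bool) (n : ℕ) :
    PP A i (seg X n) = true ↔ RR A i (seg X n) = true ∧ (∀ m < n, RR A i (seg X m) = false) := by
  unfold PP
  rw [Bool.and_eq_true, Bool.or_eq_true, decide_eq_true_eq, seg_length, Bool.not_eq_true']
  refine and_congr_right fun h => ?_
  constructor
  · rintro (h1 | h1)
    · intro m hm; omega
    · intro m hm
      rw [seg_take X (by omega)] at h1
      by_contra hcon
      rw [Bool.not_eq_false] at hcon
      have := RR_mono A i X (show m ≤ n - 1 by omega) hcon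
      rw [this] at h1
      exact absurd h1 (by decide)
  · intro h1
    by_cases h0 : n = 0
    · left; exact h0
    · right
      rw [seg_take X (by omega)]
      exact h1 _ (by omega)

theorem cyl_eq_seg {y : List Bool} {X : ℕ → Bool} (h : X ∈ cyl y) : seg X y.length = y := h

theorem PP_disj (A : (ℕ × List Bool) → ℕ → Bool) (i : ℕ) {y y' : List Bool} (hne : y ≠ y')
    (h : PP A i y = true) (h' : PP A i y' = true) : Disjoint (cyl y) (cyl y') := by
  rw [Set.disjoint_left]
  intro X hX hX'
  have e1 := cyl_eq_seg hX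
  have e2 := cyl_eq_seg hX'
  rw [← e1, PP_min] at h
  rw [← e2, PP_min] at h'
  rcases lt_trichotomy y.length y'.length with hl | hl | hl
  · have := h'.2 _ hl
    rw [h.1] at this
    exact absurd this (by decide)
  · exact hne (by rw [← e1, ← e2, hl])
  · have := h.2 _ hl
    rw [h'.1] at this
    exact absurd this (by decide)


/-- A sequence along which a universal semimeasure is at most a constant times the uniform measure
is Martin-Löf random. -/
theorem random_of_bounded {M : List Bool → ℝ} (hM : IsUniversal M) {X : ℕ → Bool} {C : ℝ}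
    (hC : ∀ n, M (seg X n) ≤ C / 2 ^ n) : MLRandom X := by
  intro V hV hm
  by_contra hcon
  push Not at hcon
  obtain ⟨A, hA, hAV⟩ := re_stage_h hV
  -- inclusion of the cylinders
  have hsub : ∀ i y, PP A i y = true → cyl y ⊆ ⋃ σ ∈ V (2 * (i + 1)), cyl σ := by
    intro i y hy X hX
    have hy1 : RR A i y = true := by
      unfold PP at hy
      rw [Bool.and_eq_true] at hy
      exact hy.1
    rw [RR_iff] at hy1
    obtain ⟨m, hm1, s, hs, h1⟩ := hy1
    have h2 : y.take m ∈ V (2 * (i + 1)) := (hAV (2 * (i + 1), y.take m)).2 ⟨s, h1⟩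
    refine Set.mem_iUnion₂.2 ⟨_, h2, ?_⟩
    change seg X (y.take m).length = y.take m
    have e1 := cyl_eq_seg hX
    rw [List.length_take, min_eq_left hm1]
    rw [← e1, seg_take X hm1]
  -- the sums
  have hsum1 : ∀ i t, ∑ l ∈ Finset.range t, ∑ k ∈ Finset.range (2 ^ l),
      (if PP A i (bits l k) = true then (1 / 2 : ℝ) ^ l else 0) ≤ (1 / 4) ^ (i + 1) := by
    intro i t
    classical
    rw [Finset.sum_sigma' (Finset.range t) (fun l => Finset.range (2 ^ l))
      (fun l k => if PP A i (bits l k) = true then (1 / 2 : ℝ) ^ l else 0)]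
    rw [← Finset.sum_filter]
    set S := ((Finset.range t).sigma fun l => Finset.range (2 ^ l)).filter
      (fun p => PP A i (bits p.1 p.2) = true) with hS
    have h1 : ∀ p ∈ S, p.2 < 2 ^ p.1 ∧ PP A i (bits p.1 p.2) = true := by
      intro p hp
      rw [hS, Finset.mem_filter, Finset.mem_sigma, Finset.mem_range, Finset.mem_range] at hp
      exact ⟨hp.1.2, hp.2⟩
    have hd : Set.PairwiseDisjoint (↑S) (fun p : (_ : ℕ) × ℕ => cyl (bits p.1 p.2)) := by
      rintro ⟨l, k⟩ hp ⟨l', k'⟩ hq hne
      have hp1 := h1 _ hp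
      have hq1 := h1 _ hq
      refine PP_disj A i ?_ hp1.2 hq1.2
      intro heq
      apply hne
      have e1 : l = l' := by
        have := congrArg List.length heq
        rwa [bits_length, bits_length] at this
      subst e1
      have e2 : k = k' := by
        have := congrArg val heq
        simp only at this
        rwa [val_bits _ _ hp1.1, val_bits _ _ hq1.1] at this
      rw [e2]
    have h2 := MeasureTheory.measureReal_biUnion_finset (μ := coin) hd (fun p _ => meas_cyl_h _)
    have h3 : ∑ p ∈ S, (1 / 2 : ℝ) ^ p.1 = ∑ p ∈ S, coin.real (cyl (bits p.1 p.2)) := by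
      refine Finset.sum_congr rfl fun p _ => ?_
      rw [coin_cyl_h, bits_length]
    rw [h3, ← h2]
    have h4 : (⋃ b ∈ S, cyl (bits b.1 b.2)) ⊆ ⋃ σ ∈ V (2 * (i + 1)), cyl σ :=
      Set.iUnion₂_subset fun p hp => hsub i _ (h1 p hp).2
    have h5 : coin.real (⋃ b ∈ S, cyl (bits b.1 b.2)) ≤
        coin.real (⋃ σ ∈ V (2 * (i + 1)), cyl σ) := MeasureTheory.measureReal_mono h4 (MeasureTheory.measure_ne_top _ _)
    refine h5.trans ?_
    have h6 := ENNReal.toReal_mono (by simp) (hm (2 * (i + 1)))
    rw [MeasureTheory.measureReal_def]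
    refine h6.trans (le_of_eq ?_)
    rw [ENNReal.toReal_pow, ENNReal.toReal_inv, pow_mul]
    norm_num
  obtain ⟨c, hc, hcM⟩ := lemmaD hM (PP A) (PP_comp hA) (fun i => i) (fun _ => 0)
    Computable.id (Computable.const 0) (by
      intro t
      have h1 : ∀ i ∈ Finset.range t, ∑ l ∈ Finset.range t, ∑ k ∈ Finset.range (2 ^ l),
          (if PP A i (bits l k) = true then (2 : ℝ) ^ i / 2 ^ (0 + l) else 0) ≤
          (1 / 4) * (1 / 2) ^ i := by
        intro i _
        have h2 := hsum1 i t
        have h3 : ∑ l ∈ Finset.range t, ∑ k ∈ Finset.range (2 ^ l),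
            (if PP A i (bits l k) = true then (2 : ℝ) ^ i / 2 ^ (0 + l) else 0) =
            2 ^ i * ∑ l ∈ Finset.range t, ∑ k ∈ Finset.range (2 ^ l),
            (if PP A i (bits l k) = true then (1 / 2 : ℝ) ^ l else 0) := by
          rw [Finset.mul_sum]
          refine Finset.sum_congr rfl fun l _ => ?_
          rw [Finset.mul_sum]
          refine Finset.sum_congr rfl fun k _ => ?_
          split_ifs
          · rw [zero_add, one_div, inv_pow]; rfl
          · rw [mul_zero]
        rw [h3]
        have h4 : (2 : ℝ) ^ i * (1 / 4) ^ (i + 1) = (1 / 4) * (1 / 2) ^ i := by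
          rw [pow_succ, ← mul_assoc, ← mul_pow]
          norm_num
          ring
        rw [← h4]
        exact mul_le_mul_of_nonneg_left h2 (by positivity)
      refine (Finset.sum_le_sum h1).trans ?_
      rw [← Finset.mul_sum]
      have h5 : ∑ i ∈ Finset.range t, (1 / 2 : ℝ) ^ i ≤ 2 := by
        have := geom_sum_eq (show (1 / 2 : ℝ) ≠ 1 by norm_num) t
        rw [this]
        have h6 : (0 : ℝ) < (1 / 2) ^ t := by positivity
        rw [show ((1 / 2 : ℝ) - 1) = -(1 / 2) by norm_num, div_neg, ← neg_div]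
        rw [div_le_iff₀ (by norm_num)]
        linarith
      linarith)
  -- conclusion
  have hfin : ∀ i : ℕ, c * 2 ^ i ≤ C := by
    intro i
    have h1 := hcon (2 * (i + 1))
    obtain ⟨σ, hσ, hX⟩ := Set.mem_iUnion₂.1 h1
    obtain ⟨s, hs⟩ := (hAV (2 * (i + 1), σ)).1 hσ
    have hex : ∃ n, RR A i (seg X n) = true := by
      refine ⟨max σ.length s, ?_⟩
      rw [RR_iff, seg_length]
      refine ⟨σ.length, le_max_left _ _, s, le_max_right _ _, ?_⟩
      rw [seg_take X (le_max_left _ _), cyl_eq_seg hX]
      exact hs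
    classical
    have h2 : PP A i (seg X (Nat.find hex)) = true := by
      rw [PP_min]
      refine ⟨Nat.find_spec hex, fun m hm => ?_⟩
      have := Nat.find_min hex hm
      rwa [Bool.not_eq_true] at this
    have h3 := hcM i _ h2
    rw [seg_length, zero_add] at h3
    have h4 := h3.trans (hC (Nat.find hex))
    have h5 : (0 : ℝ) < 2 ^ (Nat.find hex) := by positivity
    rw [← mul_div_assoc, div_le_div_iff_of_pos_right h5] at h4
    exact h4
  obtain ⟨i, hi⟩ := pow_unbounded_of_one_lt (C / c) (show (1 : ℝ) < 2 by norm_num)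
  have := hfin i
  rw [div_lt_iff₀ hc] at hi
  linarith

/-! ### Patterns -/

theorem ball_congr' (n : ℕ) (q q' : ℕ → Bool) (h : ∀ k < n, q k = q' k) :
    ball n q = ball n q' := by
  rw [Bool.eq_iff_iff, ball_iff, ball_iff]
  constructor
  · intro h1 k hk
    rw [← h k hk]
    exact h1 k hk
  · intro h1 k hk
    rw [h k hk]
    exact h1 k hk

/-- `y` avoids the pattern `w` at the positions `n0 + |w| j`, `j < m` -/
def avoid (w : List Bool) (n0 m : ℕ) (y : List Bool) : Bool :=
  ball m fun j => !(decide ((y.drop (n0 + w.length * j)).take w.length = w))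

theorem avoid_succ (w : List Bool) (n0 m : ℕ) (y z : List Bool)
    (hy : y.length = n0 + w.length * m) (hz : z.length = w.length) :
    avoid w n0 (m + 1) (y ++ z) = (avoid w n0 m y && !(decide (z = w))) := by
  have h1 : avoid w n0 (m + 1) (y ++ z) =
      (ball m (fun j => !(decide (((y ++ z).drop (n0 + w.length * j)).take w.length = w))) &&
        !(decide (((y ++ z).drop (n0 + w.length * m)).take w.length = w))) := rfl
  have h2 : ((y ++ z).drop (n0 + w.length * m)).take w.length = z := by
    rw [← hy, List.drop_left, ← hz, List.take_length]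
  rw [h1, h2]
  congr 1
  apply ball_congr'
  intro j hj
  have h3 : w.length * j + w.length ≤ w.length * m := by
    rw [← Nat.mul_succ]
    exact Nat.mul_le_mul_left _ hj
  have h4 : ((y ++ z).drop (n0 + w.length * j)).take w.length
      = (y.drop (n0 + w.length * j)).take w.length := by
    rw [List.drop_append_of_le_length (by omega),
      List.take_append_of_le_length (by rw [List.length_drop]; omega)]
  rw [h4]

theorem sum_range_mul' (f : ℕ → ℕ) (a b : ℕ) :
    ∑ k ∈ Finset.range (a * b), f k
      = ∑ i ∈ Finset.range a, ∑ z ∈ Finset.range b, f (i * b + z) := by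
  induction a with
  | zero => simp
  | succ a ih => rw [Nat.succ_mul, Finset.sum_range_add, ih, Finset.sum_range_succ]

theorem avoid_count (w : List Bool) (n0 m : ℕ) :
    ∑ k ∈ Finset.range (2 ^ (n0 + w.length * m)),
      (if avoid w n0 m (bits (n0 + w.length * m) k) = true then 1 else 0)
      ≤ 2 ^ n0 * (2 ^ w.length - 1) ^ m := by
  induction m with
  | zero => simp [avoid, ball]
  | succ m ih =>
    have e : n0 + w.length * (m + 1) = (n0 + w.length * m) + w.length := by ring
    rw [e, pow_add 2 (n0 + w.length * m) w.length, sum_range_mul']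
    have step : ∀ i ∈ Finset.range (2 ^ (n0 + w.length * m)),
        ∑ z ∈ Finset.range (2 ^ w.length),
          (if avoid w n0 (m + 1) (bits (n0 + w.length * m + w.length)
            (i * 2 ^ w.length + z)) = true then 1 else 0)
        = (if avoid w n0 m (bits (n0 + w.length * m) i) = true then 1 else 0)
          * (2 ^ w.length - 1) := by
      intro i _
      have h5 : ∀ z ∈ Finset.range (2 ^ w.length),
          (if avoid w n0 (m + 1) (bits (n0 + w.length * m + w.length)
            (i * 2 ^ w.length + z)) = true then 1 else 0)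
          = (if avoid w n0 m (bits (n0 + w.length * m) i) = true then 1 else 0)
            * (if z = val w then 0 else 1) := by
        intro z hz
        have hz' := Finset.mem_range.1 hz
        have hiff : bits w.length z = w ↔ z = val w := by
          constructor
          · intro h
            have := val_bits _ _ hz'
            rw [h] at this
            exact this.symm
          · rintro rfl
            exact bits_val w
        rw [← bits_append _ _ _ _ hz', avoid_succ _ _ _ _ _ (bits_length _ _) (bits_length _ _)]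
        by_cases h6 : z = val w
        · simp [h6, bits_val]
        · simp [hiff, h6]
      rw [Finset.sum_congr rfl h5, ← Finset.mul_sum]
      congr 1
      have h3 : ∑ z ∈ Finset.range (2 ^ w.length), (if z = val w then 1 else 0) = 1 := by
        rw [Finset.sum_ite_eq', if_pos (Finset.mem_range.2 (val_lt w))]
      have h4 : ∑ z ∈ Finset.range (2 ^ w.length), (if z = val w then 0 else 1)
          + ∑ z ∈ Finset.range (2 ^ w.length), (if z = val w then 1 else 0)
          = 2 ^ w.length := by
        rw [← Finset.sum_add_distrib]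
        rw [Finset.sum_congr rfl (g := fun _ => 1)]
        · simp
        · intro z _
          split_ifs <;> rfl
      omega
    rw [Finset.sum_congr rfl step, ← Finset.sum_mul, pow_succ, ← mul_assoc]
    exact Nat.mul_le_mul_right _ ih

theorem avoid_comp {α : Type} [Primcodable α] (w : List Bool) (n0 : ℕ) {m : α → ℕ}
    {y : α → List Bool} (hm : Computable m) (hy : Computable y) :
    Computable fun a => avoid w n0 (m a) (y a) := by
  have h1 : Computable fun p : α × ℕ =>
      !(decide (((y p.1).drop (n0 + w.length * p.2)).take w.length = w)) :=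
    cnot (ceqL (ctake (cdrop (hy.comp Computable.fst)
      (cadd (Computable.const _) (cmul (Computable.const _) Computable.snd)))
      (Computable.const _)) (Computable.const _))
  have h2 : Computable₂ fun (a : α) (j : ℕ) =>
      !(decide (((y a).drop (n0 + w.length * j)).take w.length = w)) := h1
  exact ball_comp hm h2

theorem half_bound (N : ℕ) (hN : 0 < N) : (1 - 1 / (N : ℝ)) ^ N ≤ 1 / 2 := by
  have h1 : (1 : ℝ) ≤ N := by exact_mod_cast hN
  have h2 := Real.one_sub_div_pow_le_exp_neg h1
  have h3 := Real.exp_neg_one_lt_d9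
  linarith

theorem geo_half (t : ℕ) : ∑ i ∈ Finset.range t, (1 / 2 : ℝ) ^ (i + 1) ≤ 1 := by
  have : ∑ i ∈ Finset.range t, (1 / 2 : ℝ) ^ (i + 1) = 1 - (1 / 2) ^ t := by
    induction t with
    | zero => simp
    | succ t ih =>
      rw [Finset.sum_range_succ, ih, pow_succ]
      ring
  rw [this]
  have : (0 : ℝ) ≤ (1 / 2) ^ t := by positivity
  linarith

/-- Along such a sequence every pattern occurs arbitrarily late. -/
theorem pattern {M : List Bool → ℝ} (hM : IsUniversal M) {X : ℕ → Bool} {C : ℝ}
    (hC : ∀ n, M (seg X n) ≤ C / 2 ^ n) (w : List Bool) (n0 : ℕ) :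
    ∃ n, n0 ≤ n ∧ seg X (n + w.length) = seg X n ++ w := by
  by_contra hcon
  push Not at hcon
  obtain ⟨mk, hmk⟩ : ∃ mk : ℕ → ℕ, mk = fun k => 2 ^ w.length * (2 * k + 1) := ⟨_, rfl⟩
  obtain ⟨L, hL⟩ : ∃ L : ℕ → ℕ, L = fun k => n0 + w.length * mk k := ⟨_, rfl⟩
  obtain ⟨P, hPdef⟩ : ∃ P : ℕ → List Bool → Bool,
    P = fun k y => decide (y.length = L k) && avoid w n0 (mk k) y := ⟨_, rfl⟩
  have hmkc : Computable mk := by
    rw [hmk]
    exact cmul (Computable.const _) (cadd (cmul (Computable.const 2) Computable.id)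
      (Computable.const 1))
  have hLc : Computable L := by
    rw [hL]
    exact cadd (Computable.const _) (cmul (Computable.const _) hmkc)
  have hP : Computable₂ P := by
    have h1 : Computable fun p : ℕ × List Bool =>
        decide (p.2.length = L p.1) && avoid w n0 (mk p.1) p.2 :=
      cand (ceqN (clen Computable.snd) (hLc.comp Computable.fst))
        (avoid_comp w n0 (hmkc.comp Computable.fst) Computable.snd)
    rw [hPdef]
    exact h1
  obtain ⟨c, hc, hcM⟩ := lemmaD hM P hP (fun k => k) (fun _ => 0) Computable.id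
    (Computable.const 0) (by
      intro t
      refine le_trans (Finset.sum_le_sum (g := fun i => (1 / 2 : ℝ) ^ (i + 1)) ?_) (geo_half t)
      intro i _
      have hterm : ∀ l ∈ Finset.range t, ∑ k ∈ Finset.range (2 ^ l),
          (if P i (bits l k) = true then (2 : ℝ) ^ i / 2 ^ (0 + l) else 0)
          ≤ if l = L i then (1 / 2 : ℝ) ^ (i + 1) else 0 := by
        intro l _
        by_cases hl : l = L i
        · rw [if_pos hl]
          have h1 : ∀ k, P i (bits l k) = avoid w n0 (mk i) (bits l k) := by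
            intro k
            rw [hPdef]
            simp [bits_length, hl]
          have h2 : ∑ k ∈ Finset.range (2 ^ l),
              (if P i (bits l k) = true then (2 : ℝ) ^ i / 2 ^ (0 + l) else 0)
              = (2 : ℝ) ^ i / 2 ^ l * ((∑ k ∈ Finset.range (2 ^ l),
                (if avoid w n0 (mk i) (bits l k) = true then 1 else 0) : ℕ) : ℝ) := by
            rw [Nat.cast_sum, Finset.mul_sum]
            refine Finset.sum_congr rfl fun k _ => ?_
            rw [h1, zero_add]
            split_ifs <;> simp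
          have hll : l = n0 + w.length * mk i := by rw [hl, hL]
          have h3 : (∑ k ∈ Finset.range (2 ^ l),
                (if avoid w n0 (mk i) (bits l k) = true then 1 else 0) : ℕ)
                ≤ 2 ^ n0 * (2 ^ w.length - 1) ^ (mk i) := by
            rw [hll]
            exact avoid_count w n0 (mk i)
          have hN : 0 < 2 ^ w.length := by positivity
          have h4 : (((2 ^ n0 * (2 ^ w.length - 1) ^ (mk i) : ℕ)) : ℝ)
              = 2 ^ n0 * ((2 : ℝ) ^ w.length - 1) ^ (mk i) := by
            push_cast [Nat.cast_sub (Nat.one_le_iff_ne_zero.2 hN.ne')]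
            rfl
          have h5 : ((∑ k ∈ Finset.range (2 ^ l),
                (if avoid w n0 (mk i) (bits l k) = true then 1 else 0) : ℕ) : ℝ)
                ≤ 2 ^ n0 * ((2 : ℝ) ^ w.length - 1) ^ (mk i) := by
            rw [← h4]
            exact_mod_cast h3
          rw [h2]
          have h6 : (2 : ℝ) ^ l = 2 ^ n0 * ((2 : ℝ) ^ w.length) ^ (mk i) := by
            rw [hll, pow_add, pow_mul]
          have h7 : (2 : ℝ) ^ i / 2 ^ l * (2 ^ n0 * ((2 : ℝ) ^ w.length - 1) ^ (mk i))
              = 2 ^ i * (1 - 1 / (2 : ℝ) ^ w.length) ^ (mk i) := by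
            have hx : (2 : ℝ) ^ w.length ≠ 0 := by positivity
            have h8 : (1 - 1 / (2 : ℝ) ^ w.length) = ((2 : ℝ) ^ w.length - 1) / 2 ^ w.length := by
              field_simp
            rw [h6, h8, div_pow]
            field_simp
          have h9 : (1 - 1 / (2 : ℝ) ^ w.length) ^ (mk i) ≤ (1 / 2) ^ (2 * i + 1) := by
            rw [hmk]
            show (1 - 1 / (2 : ℝ) ^ w.length) ^ (2 ^ w.length * (2 * i + 1)) ≤ _
            rw [pow_mul]
            have h10 := half_bound (2 ^ w.length) hN
            have h11 : (((2 ^ w.length : ℕ)) : ℝ) = (2 : ℝ) ^ w.length := by push_cast; rfl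
            rw [h11] at h10
            refine pow_le_pow_left₀ ?_ h10 _
            apply pow_nonneg
            have : (1 : ℝ) ≤ 2 ^ w.length := one_le_pow₀ (by norm_num)
            have : 1 / (2 : ℝ) ^ w.length ≤ 1 := by
              rw [div_le_one (by positivity)]
              exact this
            linarith
          calc (2 : ℝ) ^ i / 2 ^ l * ((∑ k ∈ Finset.range (2 ^ l),
                (if avoid w n0 (mk i) (bits l k) = true then 1 else 0) : ℕ) : ℝ)
              ≤ (2 : ℝ) ^ i / 2 ^ l * (2 ^ n0 * ((2 : ℝ) ^ w.length - 1) ^ (mk i)) :=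
                mul_le_mul_of_nonneg_left h5 (by positivity)
            _ = 2 ^ i * (1 - 1 / (2 : ℝ) ^ w.length) ^ (mk i) := h7
            _ ≤ 2 ^ i * (1 / 2) ^ (2 * i + 1) := mul_le_mul_of_nonneg_left h9 (by positivity)
            _ = (1 / 2) ^ (i + 1) := by
              rw [show 2 * i + 1 = i + (i + 1) by ring, pow_add (1 / 2 : ℝ) i, ← mul_assoc,
                ← mul_pow]
              norm_num
        · rw [if_neg hl]
          apply le_of_eq
          apply Finset.sum_eq_zero
          intro k _
          rw [if_neg]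
          rw [hPdef]
          simp [bits_length, hl]
      refine le_trans (Finset.sum_le_sum hterm) ?_
      rw [Finset.sum_ite_eq']
      split_ifs
      · exact le_rfl
      · positivity)
  obtain ⟨k, hk⟩ := pow_unbounded_of_one_lt (C / c) (one_lt_two : (1 : ℝ) < 2)
  have hPk : P k (seg X (L k)) = true := by
    rw [hPdef]
    show (decide ((seg X (L k)).length = L k) && avoid w n0 (mk k) (seg X (L k))) = true
    rw [Bool.and_eq_true]
    refine ⟨by simp [seg_length], ?_⟩
    unfold avoid
    rw [ball_iff]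
    intro j hj
    rw [Bool.not_eq_true', decide_eq_false_iff_not]
    intro heq
    apply hcon (n0 + w.length * j) (Nat.le_add_right _ _)
    have h3 : w.length * j + w.length ≤ w.length * mk k := by
      rw [← Nat.mul_succ]
      exact Nat.mul_le_mul_left _ hj
    have hLk : L k = n0 + w.length * mk k := by rw [hL]
    rw [← seg_take X (show n0 + w.length * j + w.length ≤ L k by omega), List.take_add, heq,
      seg_take X (by omega)]
  have h1 := hcM k _ hPk
  rw [seg_length] at h1
  have h2 := h1.trans (hC _)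
  rw [div_lt_iff₀ hc] at hk
  rw [zero_add, ← mul_div_assoc, div_le_div_iff_of_pos_right (by positivity)] at h2
  linarith

/-! ### Computability of the process -/

section processComp

variable {α β : Type} [Primcodable α] [Primcodable β]

theorem fs_comp {g : α → ℕ} {f : α → ℕ → Option β} (hg : Computable g)
    (hf : Computable₂ f) : Computable fun a => fs (f a) (g a) := by
  have h1 : Computable fun p : α × ℕ × Option β => p.2.2 := Computable.snd.comp Computable.snd
  have h2 : Computable fun p : α × ℕ × Option β => f p.1 p.2.1 :=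
    hf.comp Computable.fst (Computable.fst.comp Computable.snd)
  have h4 : Computable₂ fun (_ : α × ℕ × Option β) (b : β) => some b :=
    (Computable.option_some.comp Computable.snd).to₂
  have h3 : Computable₂ fun (a : α) (p : ℕ × Option β) =>
      (Option.casesOn p.2 (f a p.1) some : Option β) :=
    (Computable.option_casesOn h1 h2 h4).to₂
  exact (Computable.nat_rec hg (Computable.const none) h3).of_eq fun a => rfl

theorem hit_comp {T : α → ℕ → ℕ → ℕ → Bool}
    (hT : Computable fun z : ((α × ℕ) × ℕ) × ℕ => T z.1.1.1 z.1.1.2 z.1.2 z.2)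
    {w : β → α} {n a : β → ℕ} (hw : Computable w) (hn : Computable n) (ha : Computable a) :
    Computable fun b => hit (T (w b)) (n b) (a b) := by
  unfold hit
  refine fs_comp hn ?_
  have hw' : Computable fun p : β × ℕ => w p.1 := hw.comp Computable.fst
  have hn' : Computable fun p : β × ℕ => n p.1 := hn.comp Computable.fst
  have ha' : Computable fun p : β × ℕ => a p.1 := ha.comp Computable.fst
  have hh : Computable fun p : β × ℕ => n p.1 - 1 - p.2 :=
    csub (csub hn' (Computable.const 1)) Computable.snd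
  have h1 : Computable fun p : β × ℕ => T (w p.1) (n p.1) (n p.1 - 1 - p.2) (a p.1) :=
    hT.comp (((hw'.pair hn').pair hh).pair ha')
  exact (cite h1 (Computable.option_some.comp hh) (Computable.const none) :
    Computable fun p : β × ℕ => bif T (w p.1) (n p.1) (n p.1 - 1 - p.2) (a p.1) then
      some (n p.1 - 1 - p.2) else none)

theorem nxt_comp {T : α → ℕ → ℕ → ℕ → Bool}
    (hT : Computable fun z : ((α × ℕ) × ℕ) × ℕ => T z.1.1.1 z.1.1.2 z.1.2 z.2) :
    Computable fun z : α × ℕ × ℕ × Bool => nxt (T z.1) z.2.1 z.2.2 := by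
  have hn : Computable fun z : α × ℕ × ℕ × Bool => z.2.1 := Computable.fst.comp Computable.snd
  have hs : Computable fun z : α × ℕ × ℕ × Bool => z.2.2 := Computable.snd.comp Computable.snd
  have hu : Computable fun z : α × ℕ × ℕ × Bool => z.2.2.1 := Computable.fst.comp hs
  have hb : Computable fun z : α × ℕ × ℕ × Bool => z.2.2.2 := Computable.snd.comp hs
  have hhit : Computable fun z : α × ℕ × ℕ × Bool => hit (T z.1) (z.2.1 + 1) (16 * z.2.2.1) :=
    hit_comp hT Computable.fst (cadd hn (Computable.const 1)) (cmul (Computable.const 16) hu)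
  have h0 : Computable fun z : α × ℕ × ℕ × Bool => ((2 * z.2.2.1, false) : ℕ × Bool) :=
    (cmul (Computable.const 2) hu).pair (Computable.const false)
  have hn' : Computable fun p : (α × ℕ × ℕ × Bool) × ℕ => p.1.2.1 := hn.comp Computable.fst
  have hu' : Computable fun p : (α × ℕ × ℕ × Bool) × ℕ => p.1.2.2.1 := hu.comp Computable.fst
  have hv : Computable fun p : (α × ℕ × ℕ × Bool) × ℕ =>
      2 * p.1.2.2.1 + (2 ^ p.2 - (16 * p.1.2.2.1) % 2 ^ p.2) :=
    cadd (cmul (Computable.const 2) hu') (csub (cpw Computable.snd)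
      (cmod (cmul (Computable.const 16) hu') (cpw Computable.snd)))
  have h1 : Computable₂ fun (z : α × ℕ × ℕ × Bool) (h : ℕ) =>
      ((2 * z.2.2.1 + (2 ^ h - (16 * z.2.2.1) % 2 ^ h),
        !(decide (32 * (2 * z.2.2.1 + (2 ^ h - (16 * z.2.2.1) % 2 ^ h)) ≤ 2 ^ (z.2.1 + 1)))) :
          ℕ × Bool) :=
    (hv.pair (cnot (cle (cmul (Computable.const 32) hv)
      (cpw (cadd hn' (Computable.const 1)))))).to₂
  exact cite hb hs (Computable.option_casesOn hhit h0 h1)

theorem st_comp {T : α → ℕ → ℕ → ℕ → Bool}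
    (hT : Computable fun z : ((α × ℕ) × ℕ) × ℕ => T z.1.1.1 z.1.1.2 z.1.2 z.2)
    {w : β → α} {n : β → ℕ} (hw : Computable w) (hn : Computable n) :
    Computable fun b => st (T (w b)) (n b) := by
  have hw1 : Computable fun z : β × ℕ × ℕ × Bool => (w z.1, z.2) :=
    (hw.comp Computable.fst).pair Computable.snd
  have h0 := (nxt_comp hT).comp hw1
  have h1 : Computable₂ fun (b : β) (p : ℕ × ℕ × Bool) => nxt (T (w b)) p.1 p.2 := h0.to₂
  have h2 := Computable.nat_rec hn (Computable.const ((0, false) : ℕ × Bool)) h1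
  exact h2

theorem rng_comp {T : α → ℕ → ℕ → ℕ → Bool}
    (hT : Computable fun z : ((α × ℕ) × ℕ) × ℕ => T z.1.1.1 z.1.1.2 z.1.2 z.2)
    {w : β → α} {n : β → ℕ} (hw : Computable w) (hn : Computable n) :
    Computable fun b => rng (T (w b)) (n b) (st (T (w b)) (n b)) := by
  have hs : Computable fun b => st (T (w b)) (n b) := st_comp hT hw hn
  have hu : Computable fun b => (st (T (w b)) (n b)).1 := Computable.fst.comp hs
  have hb : Computable fun b => (st (T (w b)) (n b)).2 := Computable.snd.comp hs
  have hhit : Computable fun b => hit (T (w b)) (n b + 1) (16 * (st (T (w b)) (n b)).1) :=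
    hit_comp hT hw (cadd hn (Computable.const 1)) (cmul (Computable.const 16) hu)
  have hn' : Computable fun p : β × ℕ => n p.1 := hn.comp Computable.fst
  have hu' : Computable fun p : β × ℕ => (st (T (w p.1)) (n p.1)).1 := hu.comp Computable.fst
  have hsz : Computable fun p : β × ℕ =>
      2 ^ p.2 - (16 * (st (T (w p.1)) (n p.1)).1) % 2 ^ p.2 :=
    csub (cpw Computable.snd) (cmod (cmul (Computable.const 16) hu') (cpw Computable.snd))
  have h16 : Computable fun p : β × ℕ => 16 * (st (T (w p.1)) (n p.1)).1 :=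
    cmul (Computable.const 16) hu'
  have hc : Computable fun p : β × ℕ =>
      decide (32 * (2 * (st (T (w p.1)) (n p.1)).1 +
        (2 ^ p.2 - (16 * (st (T (w p.1)) (n p.1)).1) % 2 ^ p.2)) ≤ 2 ^ (n p.1 + 1)) :=
    cle (cmul (Computable.const 32) (cadd (cmul (Computable.const 2) hu') hsz))
      (cpw (cadd hn' (Computable.const 1)))
  have hA : Computable fun p : β × ℕ => ((16 * (st (T (w p.1)) (n p.1)).1 +
      (2 ^ p.2 - (16 * (st (T (w p.1)) (n p.1)).1) % 2 ^ p.2),
      16 * (st (T (w p.1)) (n p.1)).1 + (2 ^ p.2 - (16 * (st (T (w p.1)) (n p.1)).1) % 2 ^ p.2) +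
        7 * (2 ^ p.2 - (16 * (st (T (w p.1)) (n p.1)).1) % 2 ^ p.2)) : ℕ × ℕ) :=
    (cadd h16 hsz).pair (cadd (cadd h16 hsz) (cmul (Computable.const 7) hsz))
  have hB : Computable fun p : β × ℕ => ((2 ^ (n p.1),
      2 ^ (n p.1) + (2 ^ (n p.1) - 14 * (st (T (w p.1)) (n p.1)).1)) : ℕ × ℕ) :=
    (cpw hn').pair (cadd (cpw hn') (csub (cpw hn') (cmul (Computable.const 14) hu')))
  have h1 := (cite hc hA hB).to₂
  exact cite hb (Computable.const ((0, 0) : ℕ × ℕ))
    (Computable.option_casesOn hhit (Computable.const ((0, 0) : ℕ × ℕ)) h1)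

end processComp

/-! ### The test and the nodes -/

section nodes

variable (p q : List Bool → ℕ → ℕ)

/-- the test performed at level `n` of the attack on the node `x` of depth `j`, on the string of
length `|x| + n - h` at the frontier index `a` -/
def tst (e j : ℕ) (x : List Bool) (n h a : ℕ) : Bool :=
  decide (2 ^ (j + 1) * (q (x ++ bits (n - h) (a / 2 ^ h)) (x.length + n) + 1) ≤
    p (x ++ bits (n - h) (a / 2 ^ h)) (x.length + n) *
      2 ^ (x ++ bits (n - h) (a / 2 ^ h)).length) ||
  (decide ((a % 2 ^ h) * 2 ^ (2 * e + 2) < 2 ^ h) &&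
    decide (2 ^ j * (q (x ++ bits (n - h) (a / 2 ^ h)) (x.length + n) + 1) ≤
      p (x ++ bits (n - h) (a / 2 ^ h)) (x.length + n) *
        2 ^ (x ++ bits (n - h) (a / 2 ^ h)).length * 2 ^ (2 * e)))

/-- `y` is one of the pieces produced by the attack on the node `x` of depth `j` -/
def piece (e j : ℕ) (x y : List Bool) : Bool :=
  decide (x.length < y.length) && (decide (y.take x.length = x) &&
    (decide ((rng (tst p q e j x) (y.length - x.length - 1)
        (st (tst p q e j x) (y.length - x.length - 1))).1 ≤ val (y.drop x.length)) &&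
      decide (val (y.drop x.length) < (rng (tst p q e j x) (y.length - x.length - 1)
        (st (tst p q e j x) (y.length - x.length - 1))).2)))

/-- the nodes of depth `j` -/
def node (e : ℕ) : ℕ → List Bool → Prop
  | 0, y => y = []
  | j + 1, y => ∃ x, node e j x ∧ piece p q e j x y = true

/-- the list of the truth values of `node e j` on the initial segments of `y` -/
def lvs (e : ℕ) (y : List Bool) (j : ℕ) : List Bool :=
  Nat.rec (motive := fun _ => List Bool) (seg (fun l => decide (l = 0)) (y.length + 1))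
    (fun j s => seg (fun l => bex l fun l' =>
      (s.getD l' false) && piece p q e j (y.take l') (y.take l)) (y.length + 1)) j

/-- decision procedure for `node` -/
def nodeB (e j : ℕ) (y : List Bool) : Bool := (lvs p q e y j).getD y.length false

theorem piece_spec {e j : ℕ} {x y : List Bool} : piece p q e j x y = true ↔
    ∃ n i, y = x ++ bits (n + 1) i ∧ i < 2 ^ (n + 1) ∧
      (rng (tst p q e j x) n (st (tst p q e j x) n)).1 ≤ i ∧
      i < (rng (tst p q e j x) n (st (tst p q e j x) n)).2 := by
  unfold piece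
  simp only [Bool.and_eq_true, decide_eq_true_eq]
  constructor
  · rintro ⟨h1, h2, h3, h4⟩
    have e1 : (y.drop x.length).length = (y.length - x.length - 1) + 1 := by
      rw [List.length_drop]; omega
    refine ⟨y.length - x.length - 1, val (y.drop x.length), ?_, ?_, h3, h4⟩
    · rw [← e1, bits_val]
      conv_lhs => rw [← List.take_append_drop x.length y, h2]
    · rw [← e1]
      exact val_lt _
  · rintro ⟨n, i, rfl, h1, h2, h3⟩
    have e1 : (x ++ bits (n + 1) i).length - x.length - 1 = n := by
      rw [List.length_append, bits_length]; omega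
    have e2 : (x ++ bits (n + 1) i).drop x.length = bits (n + 1) i := List.drop_left' rfl
    rw [e1, e2, val_bits _ _ h1]
    refine ⟨by rw [List.length_append, bits_length]; omega, List.take_left' rfl, h2, h3⟩

theorem lvs_get (e : ℕ) (y : List Bool) (j : ℕ) : ∀ l, l ≤ y.length →
    ((lvs p q e y j).getD l false = true ↔ node p q e j (y.take l)) := by
  induction j with
  | zero =>
    intro l hl
    show (seg (fun l => decide (l = 0)) (y.length + 1)).getD l false = true ↔ y.take l = []
    rw [List.getD_eq_getElem?_getD, seg_get _ (by omega)]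
    simp only [Option.getD_some, decide_eq_true_eq]
    constructor
    · rintro rfl; rfl
    · intro h
      have := congrArg List.length h
      rw [List.length_take] at this
      simp only [List.length_nil] at this
      omega
  | succ j ih =>
    intro l hl
    show (seg (fun l => bex l fun l' =>
      ((lvs p q e y j).getD l' false) && piece p q e j (y.take l') (y.take l))
        (y.length + 1)).getD l false = true ↔ ∃ x, node p q e j x ∧ piece p q e j x (y.take l) = true
    rw [List.getD_eq_getElem?_getD, seg_get _ (by omega)]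
    simp only [Option.getD_some]
    rw [bex_iff]
    constructor
    · rintro ⟨l', hl', h⟩
      rw [Bool.and_eq_true] at h
      exact ⟨y.take l', (ih l' (by omega)).1 h.1, h.2⟩
    · rintro ⟨x, hx, hp⟩
      have hp' := hp
      unfold piece at hp'
      simp only [Bool.and_eq_true, decide_eq_true_eq] at hp'
      have h1 : x.length < l := by
        have := hp'.1
        rw [List.length_take] at this
        omega
      have h2 : x = y.take x.length := by
        have := hp'.2.1
        rw [List.take_take, min_eq_left (by omega)] at this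
        exact this.symm
      refine ⟨x.length, h1, ?_⟩
      rw [Bool.and_eq_true]
      refine ⟨(ih x.length (by omega)).2 (by rw [← h2]; exact hx), ?_⟩
      rw [← h2]
      exact hp

theorem nodeB_iff (e j : ℕ) (y : List Bool) : nodeB p q e j y = true ↔ node p q e j y := by
  unfold nodeB
  rw [lvs_get p q e y j y.length le_rfl, List.take_length]

variable {p q}

theorem tst_comp (hp : Computable₂ p) (hq : Computable₂ q) :
    Computable fun z : ((((ℕ × ℕ) × List Bool) × ℕ) × ℕ) × ℕ =>
      tst p q z.1.1.1.1.1 z.1.1.1.1.2 z.1.1.1.2 z.1.1.2 z.1.2 z.2 := by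
  have he : Computable fun z : ((((ℕ × ℕ) × List Bool) × ℕ) × ℕ) × ℕ => z.1.1.1.1.1 :=
    Computable.fst.comp (Computable.fst.comp (Computable.fst.comp (Computable.fst.comp
      Computable.fst)))
  have hj : Computable fun z : ((((ℕ × ℕ) × List Bool) × ℕ) × ℕ) × ℕ => z.1.1.1.1.2 :=
    Computable.snd.comp (Computable.fst.comp (Computable.fst.comp (Computable.fst.comp
      Computable.fst)))
  have hx : Computable fun z : ((((ℕ × ℕ) × List Bool) × ℕ) × ℕ) × ℕ => z.1.1.1.2 :=
    Computable.snd.comp (Computable.fst.comp (Computable.fst.comp Computable.fst))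
  have hn : Computable fun z : ((((ℕ × ℕ) × List Bool) × ℕ) × ℕ) × ℕ => z.1.1.2 :=
    Computable.snd.comp (Computable.fst.comp Computable.fst)
  have hh : Computable fun z : ((((ℕ × ℕ) × List Bool) × ℕ) × ℕ) × ℕ => z.1.2 :=
    Computable.snd.comp Computable.fst
  have ha : Computable fun z : ((((ℕ × ℕ) × List Bool) × ℕ) × ℕ) × ℕ => z.2 := Computable.snd
  have hJ := cappend hx (bits_comp (csub hn hh) (cdiv ha (cpw hh)))
  have ht := cadd (clen hx) hn
  have hpJ := hp.comp hJ ht
  have hqJ := cadd (hq.comp hJ ht) (Computable.const 1)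
  have hl := cpw (clen hJ)
  exact cor (cle (cmul (cpw (cadd hj (Computable.const 1))) hqJ) (cmul hpJ hl))
    (cand (clt (cmul (cmod ha (cpw hh)) (cpw (cadd (cmul (Computable.const 2) he)
      (Computable.const 2)))) (cpw hh))
      (cle (cmul (cpw hj) hqJ) (cmul (cmul hpJ hl) (cpw (cmul (Computable.const 2) he)))))

theorem piece_comp (hp : Computable₂ p) (hq : Computable₂ q) {β : Type} [Primcodable β]
    {e j : β → ℕ} {x y : β → List Bool} (he : Computable e) (hj : Computable j)
    (hx : Computable x) (hy : Computable y) :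
    Computable fun b => piece p q (e b) (j b) (x b) (y b) := by
  have hw : Computable fun b => (((e b, j b), x b) : (ℕ × ℕ) × List Bool) := (he.pair hj).pair hx
  have hn : Computable fun b => (y b).length - (x b).length - 1 :=
    csub (csub (clen hy) (clen hx)) (Computable.const 1)
  have hr := rng_comp (T := fun w : (ℕ × ℕ) × List Bool => tst p q w.1.1 w.1.2 w.2)
    (tst_comp hp hq) hw hn
  exact cand (clt (clen hx) (clen hy)) (cand (ceqL (ctake hy (clen hx)) hx)
    (cand (cle (Computable.fst.comp hr) (val_comp (cdrop hy (clen hx))))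
      (clt (val_comp (cdrop hy (clen hx))) (Computable.snd.comp hr))))

theorem getD_comp {β : Type} [Primcodable β] {f : β → List Bool} {n : β → ℕ} (hf : Computable f)
    (hn : Computable n) : Computable fun b => (f b).getD (n b) false := by
  have h1 : Computable fun b => (f b)[n b]? := Computable.list_getElem?.comp hf hn
  refine (Computable.option_getD h1 (Computable.const false)).of_eq fun b => ?_
  rw [List.getD_eq_getElem?_getD]

theorem nodeB_comp (hp : Computable₂ p) (hq : Computable₂ q) :
    Computable fun z : (ℕ × ℕ) × List Bool => nodeB p q z.1.1 z.1.2 z.2 := by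
  have he : Computable fun z : (ℕ × ℕ) × List Bool => z.1.1 :=
    Computable.fst.comp Computable.fst
  have hj : Computable fun z : (ℕ × ℕ) × List Bool => z.1.2 :=
    Computable.snd.comp Computable.fst
  have hy : Computable fun z : (ℕ × ℕ) × List Bool => z.2 := Computable.snd
  have hlen : Computable fun z : (ℕ × ℕ) × List Bool => z.2.length + 1 :=
    cadd (clen hy) (Computable.const 1)
  have h0 : Computable fun z : (ℕ × ℕ) × List Bool =>
      seg (fun l => decide (l = 0)) (z.2.length + 1) := by
    refine seg_comp ?_ hlen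
    exact (ceqN (f := fun w : ((ℕ × ℕ) × List Bool) × ℕ => w.2) Computable.snd
      (Computable.const 0) : Computable fun w : ((ℕ × ℕ) × List Bool) × ℕ => decide (w.2 = 0))
  have hstep : Computable₂ fun (z : (ℕ × ℕ) × List Bool) (r : ℕ × List Bool) =>
      seg (fun l => bex l fun l' => (r.2.getD l' false) &&
        piece p q z.1.1 r.1 (z.2.take l') (z.2.take l)) (z.2.length + 1) := by
    have hinner : Computable fun w : ((((ℕ × ℕ) × List Bool) × ℕ × List Bool) × ℕ) × ℕ =>
        (w.1.1.2.2.getD w.2 false) &&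
          piece p q w.1.1.1.1.1 w.1.1.2.1 (w.1.1.1.2.take w.2) (w.1.1.1.2.take w.1.2) := by
      have k1 : Computable fun w : ((((ℕ × ℕ) × List Bool) × ℕ × List Bool) × ℕ) × ℕ => w.1.1 :=
        Computable.fst.comp Computable.fst
      have kz : Computable fun w : ((((ℕ × ℕ) × List Bool) × ℕ × List Bool) × ℕ) × ℕ =>
        w.1.1.1 := Computable.fst.comp k1
      have kr : Computable fun w : ((((ℕ × ℕ) × List Bool) × ℕ × List Bool) × ℕ) × ℕ =>
        w.1.1.2 := Computable.snd.comp k1
      have kl : Computable fun w : ((((ℕ × ℕ) × List Bool) × ℕ × List Bool) × ℕ) × ℕ => w.1.2 :=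
        Computable.snd.comp Computable.fst
      exact cand (getD_comp (Computable.snd.comp kr) Computable.snd)
        (piece_comp hp hq (Computable.fst.comp (Computable.fst.comp kz)) (Computable.fst.comp kr)
          (ctake (Computable.snd.comp kz) Computable.snd) (ctake (Computable.snd.comp kz) kl))
    have hbex : Computable fun w : (((ℕ × ℕ) × List Bool) × ℕ × List Bool) × ℕ =>
        bex w.2 fun l' => (w.1.2.2.getD l' false) &&
          piece p q w.1.1.1.1 w.1.2.1 (w.1.1.2.take l') (w.1.1.2.take w.2) :=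
      bex_comp (g := fun w : (((ℕ × ℕ) × List Bool) × ℕ × List Bool) × ℕ => w.2)
        (q := fun w l' => (w.1.2.2.getD l' false) &&
          piece p q w.1.1.1.1 w.1.2.1 (w.1.1.2.take l') (w.1.1.2.take w.2))
        Computable.snd hinner
    have hseg : Computable fun w : ((ℕ × ℕ) × List Bool) × ℕ × List Bool =>
        seg (fun l => bex l fun l' => (w.2.2.getD l' false) &&
          piece p q w.1.1.1 w.2.1 (w.1.2.take l') (w.1.2.take l)) (w.1.2.length + 1) :=
      seg_comp (f := fun (w : ((ℕ × ℕ) × List Bool) × ℕ × List Bool) l =>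
        bex l fun l' => (w.2.2.getD l' false) &&
          piece p q w.1.1.1 w.2.1 (w.1.2.take l') (w.1.2.take l))
        hbex (hlen.comp Computable.fst)
    exact hseg.to₂
  have hl : Computable fun z : (ℕ × ℕ) × List Bool => lvs p q z.1.1 z.2 z.1.2 :=
    (Computable.nat_rec hj h0 hstep).of_eq fun z => rfl
  exact getD_comp hl (clen hy)

end nodes

/-! ### Total size of the nodes -/

/-- all strings of length less than `t` -/
def strs (t : ℕ) : Finset (List Bool) :=
  (Finset.range t).biUnion fun l => (Finset.range (2 ^ l)).image (bits l)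

theorem mem_strs {t : ℕ} {y : List Bool} : y ∈ strs t ↔ y.length < t := by
  unfold strs
  simp only [Finset.mem_biUnion, Finset.mem_range, Finset.mem_image]
  constructor
  · rintro ⟨l, hl, k, _, rfl⟩
    rw [bits_length]
    exact hl
  · intro h
    exact ⟨y.length, h, val y, val_lt y, bits_val y⟩

theorem sum_strs (t : ℕ) (g : List Bool → ℝ) : ∑ y ∈ strs t, g y =
    ∑ l ∈ Finset.range t, ∑ k ∈ Finset.range (2 ^ l), g (bits l k) := by
  unfold strs
  rw [Finset.sum_biUnion]
  · refine Finset.sum_congr rfl fun l _ => ?_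
    rw [Finset.sum_image]
    intro a ha b hb hab
    have ha' := Finset.mem_range.1 (Finset.mem_coe.1 ha)
    have hb' := Finset.mem_range.1 (Finset.mem_coe.1 hb)
    have := congrArg val hab
    rwa [val_bits _ _ ha', val_bits _ _ hb'] at this
  · intro a _ b _ hab
    rw [Function.onFun, Finset.disjoint_left]
    intro y hy hy'
    rw [Finset.mem_image] at hy hy'
    obtain ⟨k, _, rfl⟩ := hy
    obtain ⟨k', _, h⟩ := hy'
    have := congrArg List.length h
    rw [bits_length, bits_length] at this
    exact hab this.symm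

section sums

variable (p q : List Bool → ℕ → ℕ)

theorem piece_sum (e j t : ℕ) (x : List Bool) :
    ∑ y ∈ strs t, (if piece p q e j x y = true then (1 : ℝ) / 2 ^ y.length else 0) ≤
      1 / 2 ^ x.length / 2 := by
  classical
  set T := tst p q e j x with hTdef
  rw [← Finset.sum_filter]
  set A := (strs t).filter fun y => piece p q e j x y = true with hA
  set φ : List Bool → (Σ _ : ℕ, ℕ) := fun y => ⟨y.length - x.length - 1, val (y.drop x.length)⟩
    with hφ
  set g : (Σ _ : ℕ, ℕ) → ℝ := fun z => 1 / 2 ^ (x.length + (z.1 + 1)) with hg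
  have hspec : ∀ y ∈ A, ∃ n i, y = x ++ bits (n + 1) i ∧ i < 2 ^ (n + 1) ∧
      (rng T n (st T n)).1 ≤ i ∧ i < (rng T n (st T n)).2 ∧ n < t ∧ φ y = ⟨n, i⟩ := by
    intro y hy
    obtain ⟨hy1, hy2⟩ := Finset.mem_filter.1 hy
    obtain ⟨n, i, rfl, h1, h2, h3⟩ := (piece_spec p q).1 hy2
    have hl : (x ++ bits (n + 1) i).length = x.length + (n + 1) := by
      rw [List.length_append, bits_length]
    refine ⟨n, i, rfl, h1, h2, h3, ?_, ?_⟩
    · have := mem_strs.1 hy1
      omega
    · simp only [hφ]
      have e1 : (x ++ bits (n + 1) i).length - x.length - 1 = n := by omega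
      have e2 : (x ++ bits (n + 1) i).drop x.length = bits (n + 1) i := List.drop_left' rfl
      rw [e1, e2, val_bits _ _ h1]
  have hinj : Set.InjOn φ (A : Set (List Bool)) := by
    intro y hy y' hy' hyy
    obtain ⟨n, i, rfl, _, _, _, _, h1⟩ := hspec y hy
    obtain ⟨n', i', rfl, _, _, _, _, h2⟩ := hspec y' hy'
    rw [h1, h2] at hyy
    have e1 : n = n' := congrArg Sigma.fst hyy
    subst e1
    have e2 : i = i' := by simpa using hyy
    rw [e2]
  have h1 : ∑ y ∈ A, (1 : ℝ) / 2 ^ y.length = ∑ z ∈ A.image φ, g z := by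
    rw [Finset.sum_image hinj]
    refine Finset.sum_congr rfl fun y hy => ?_
    obtain ⟨n, i, rfl, _, _, _, _, h1⟩ := hspec y hy
    rw [h1, List.length_append, bits_length]
  rw [h1]
  have h2 : A.image φ ⊆ (Finset.range t).sigma fun n =>
      Finset.Ico (rng T n (st T n)).1 (rng T n (st T n)).2 := by
    intro z hz
    obtain ⟨y, hy, rfl⟩ := Finset.mem_image.1 hz
    obtain ⟨n, i, _, _, h3, h4, h5, h6⟩ := hspec y hy
    rw [h6, Finset.mem_sigma]
    exact ⟨Finset.mem_range.2 h5, Finset.mem_Ico.2 ⟨h3, h4⟩⟩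
  refine (Finset.sum_le_sum_of_subset_of_nonneg h2 fun z _ _ => by
    simp only [hg]; positivity).trans ?_
  rw [Finset.sum_sigma]
  have h3 : ∀ n ∈ Finset.range t, (∑ i ∈ Finset.Ico (rng T n (st T n)).1 (rng T n (st T n)).2,
      g ⟨n, i⟩) = 1 / 2 ^ x.length *
        ((((rng T n (st T n)).2 - (rng T n (st T n)).1 : ℕ) : ℝ) / 2 ^ (n + 1)) := by
    intro n _
    simp only [hg]
    rw [Finset.sum_const, Nat.card_Ico, nsmul_eq_mul, pow_add]
    field_simp
  rw [Finset.sum_congr rfl h3, ← Finset.mul_sum]
  have h4 := cnt_sum_le (T := T) t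
  calc 1 / 2 ^ x.length * _ ≤ 1 / 2 ^ x.length * (1 / 2 : ℝ) :=
        mul_le_mul_of_nonneg_left h4 (by positivity)
    _ = _ := by ring

open Classical in
theorem node_sum (e j t : ℕ) :
    ∑ y ∈ strs t, (if node p q e j y then (1 : ℝ) / 2 ^ y.length else 0) ≤ 1 / 2 ^ j := by
  induction j with
  | zero =>
    have h1 : ∀ y ∈ strs t, (if node p q e 0 y then (1 : ℝ) / 2 ^ y.length else 0) =
        if y = [] then 1 else 0 := by
      intro y _
      have : node p q e 0 y ↔ y = [] := Iff.rfl
      by_cases hy : y = []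
      · subst hy
        rw [if_pos (this.2 rfl), if_pos rfl]
        simp
      · rw [if_neg (fun h => hy (this.1 h)), if_neg hy]
    rw [Finset.sum_congr rfl h1, Finset.sum_ite_eq']
    split_ifs <;> norm_num
  | succ j ih =>
    have h1 : ∀ y ∈ strs t, (if node p q e (j + 1) y then (1 : ℝ) / 2 ^ y.length else 0) ≤
        ∑ x ∈ strs t, if node p q e j x then
          (if piece p q e j x y = true then (1 : ℝ) / 2 ^ y.length else 0) else 0 := by
      intro y hy
      have h0 : ∀ x ∈ strs t, (0 : ℝ) ≤ if node p q e j x then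
          (if piece p q e j x y = true then (1 : ℝ) / 2 ^ y.length else 0) else 0 := by
        intro x _
        split_ifs <;> positivity
      by_cases hn : node p q e (j + 1) y
      · rw [if_pos hn]
        obtain ⟨x, hx, hxy⟩ := hn
        have hlen : x.length < y.length := by
          have hxy' := hxy
          unfold piece at hxy'
          simp only [Bool.and_eq_true, decide_eq_true_eq] at hxy'
          exact hxy'.1
        have hmem : x ∈ strs t := mem_strs.2 (hlen.trans (mem_strs.1 hy))
        refine le_trans ?_ (Finset.single_le_sum h0 hmem)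
        rw [if_pos hx, if_pos hxy]
      · rw [if_neg hn]
        exact Finset.sum_nonneg h0
    refine (Finset.sum_le_sum h1).trans ?_
    rw [Finset.sum_comm]
    have h2 : ∀ x ∈ strs t, (∑ y ∈ strs t, if node p q e j x then
        (if piece p q e j x y = true then (1 : ℝ) / 2 ^ y.length else 0) else 0) ≤
        (if node p q e j x then (1 : ℝ) / 2 ^ x.length else 0) * (1 / 2) := by
      intro x _
      by_cases hx : node p q e j x
      · simp only [if_pos hx]
        refine (piece_sum p q e j t x).trans (le_of_eq ?_)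
        ring
      · simp only [if_neg hx]
        simp
    refine (Finset.sum_le_sum h2).trans ?_
    rw [← Finset.sum_mul, pow_succ]
    calc _ ≤ 1 / 2 ^ j * (1 / 2 : ℝ) := mul_le_mul_of_nonneg_right ih (by norm_num)
      _ = _ := by field_simp

end sums

/-- the depth of the tree of attacks with parameter `e` -/
def dd (e : ℕ) : ℕ := 64 * (2 ^ (2 * e) - 1) + 1

theorem leaves {M : List Bool → ℝ} (hM : IsUniversal M) {p q : List Bool → ℕ → ℕ}
    (hp : Computable₂ p) (hq : Computable₂ q) : ∃ c : ℝ, 0 < c ∧ ∀ e y,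
      node p q e (dd e) y → c * (2 ^ (dd e) / 2 ^ (e + 1 + y.length)) ≤ M y := by
  classical
  have hdd : Computable dd := cadd (cmul (Computable.const 64)
    (csub (cpw (cmul (Computable.const 2) Computable.id)) (Computable.const 1)))
    (Computable.const 1)
  have hP : Computable₂ fun e y => nodeB p q e (dd e) y :=
    (((nodeB_comp hp hq).comp ((Computable.fst.pair (hdd.comp Computable.fst)).pair
      Computable.snd)) : Computable fun z : ℕ × List Bool => nodeB p q z.1 (dd z.1) z.2)
  obtain ⟨c, hc, h⟩ := lemmaD hM (fun e y => nodeB p q e (dd e) y) hP dd (fun e => e + 1) hdd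
    (cadd Computable.id (Computable.const 1)) (by
      intro t
      have h1 : ∀ e ∈ Finset.range t, (∑ l ∈ Finset.range t, ∑ k ∈ Finset.range (2 ^ l),
          (if nodeB p q e (dd e) (bits l k) = true then (2 : ℝ) ^ (dd e) / 2 ^ (e + 1 + l) else 0)) ≤
          1 / 2 ^ (e + 1) := by
        intro e _
        have h2 : (∑ l ∈ Finset.range t, ∑ k ∈ Finset.range (2 ^ l),
          (if nodeB p q e (dd e) (bits l k) = true then (2 : ℝ) ^ (dd e) / 2 ^ (e + 1 + l) else 0)) =
          2 ^ (dd e) / 2 ^ (e + 1) * ∑ y ∈ strs t,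
            (if node p q e (dd e) y then (1 : ℝ) / 2 ^ y.length else 0) := by
          rw [sum_strs, Finset.mul_sum]
          refine Finset.sum_congr rfl fun l _ => ?_
          rw [Finset.mul_sum]
          refine Finset.sum_congr rfl fun k _ => ?_
          by_cases hn : node p q e (dd e) (bits l k)
          · rw [if_pos hn, if_pos ((nodeB_iff p q e _ _).2 hn), bits_length, pow_add]
            field_simp
          · rw [if_neg hn, if_neg (fun h => hn ((nodeB_iff p q e _ _).1 h)), mul_zero]
        rw [h2]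
        calc _ ≤ (2 : ℝ) ^ (dd e) / 2 ^ (e + 1) * (1 / 2 ^ (dd e)) :=
              mul_le_mul_of_nonneg_left (node_sum p q e (dd e) t) (by positivity)
          _ = _ := by field_simp
      refine (Finset.sum_le_sum h1).trans ?_
      have h3 : ∀ t : ℕ, ∑ e ∈ Finset.range t, (1 : ℝ) / 2 ^ (e + 1) = 1 - 1 / 2 ^ t := by
        intro t
        induction t with
        | zero => simp
        | succ t ih =>
          rw [Finset.sum_range_succ, ih, pow_succ]
          field_simp
          ring
      rw [h3]
      have : (0 : ℝ) ≤ 1 / 2 ^ t := by positivity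
      linarith)
  exact ⟨c, hc, fun e y hy => h e y ((nodeB_iff p q e _ _).2 hy)⟩

/-! ### The attack on one node -/

section attack

variable {M : List Bool → ℝ} {p q : List Bool → ℕ → ℕ}

/-- the truncated semimeasure above `x` -/
noncomputable def trunc (M : List Bool → ℝ) (j : ℕ) (x : List Bool) (n i : ℕ) : ℝ :=
  min (M (x ++ bits n i)) ((2 ^ (j + 1) / 2 ^ x.length) / 2 ^ n)

theorem trunc_super (hM : IsSemimeasure M) (j : ℕ) (x : List Bool) :
    Super (trunc M j x) (2 ^ (j + 1) / 2 ^ x.length) := by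
  refine ⟨fun n i => le_min (hM.nonneg _) (by positivity), fun n i => ?_, fun n i => min_le_right _ _⟩
  unfold trunc
  have e1 : bits (n + 1) (2 * i) = bits n i ++ [false] := by
    rw [bits_succ]
    have h1 : 2 * i / 2 = i := by omega
    have h2 : decide (2 * i % 2 = 1) = false := by
      rw [decide_eq_false_iff_not]; omega
    rw [h1, h2]
  have e2 : bits (n + 1) (2 * i + 1) = bits n i ++ [true] := by
    rw [bits_succ]
    have h1 : (2 * i + 1) / 2 = i := by omega
    have h2 : decide ((2 * i + 1) % 2 = 1) = true := by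
      rw [decide_eq_true_eq]; omega
    rw [h1, h2]
  rw [e1, e2, ← List.append_assoc, ← List.append_assoc]
  have h1 := hM.split (x ++ bits n i)
  refine le_min ?_ ?_
  · exact (add_le_add (min_le_left _ _) (min_le_left _ _)).trans h1
  · refine (add_le_add (min_le_right _ _) (min_le_right _ _)).trans (le_of_eq ?_)
    rw [pow_succ (2 : ℝ) n]
    field_simp
    ring

variable (hpq : ∀ x, Monotone (fun t => (p x t : ℝ) / (q x t + 1)) ∧
      Filter.Tendsto (fun t => (p x t : ℝ) / (q x t + 1)) Filter.atTop (nhds (M x)))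

include hpq in
theorem approx_le (y : List Bool) (t : ℕ) : (p y t : ℝ) / (q y t + 1) ≤ M y :=
  (hpq y).1.ge_of_tendsto (hpq y).2 t

include hpq in
theorem tst_true {e j : ℕ} {x : List Bool} {n h a : ℕ} (hh : h ≤ n)
    (ht : tst p q e j x (n + 1) h a = true) :
    (1 / 2 ^ (2 * e) : ℝ) / 4 * (2 ^ (j + 1) / 2 ^ x.length) * ((2 ^ h - a % 2 ^ h : ℕ) : ℝ) /
        2 ^ (n + 1) ≤
      trunc M j x (n + 1 - h) (a / 2 ^ h) -
        (2 ^ (j + 1) / 2 ^ x.length) * ((a % 2 ^ h : ℕ) : ℝ) / 2 ^ (n + 1) := by
  set J := x ++ bits (n + 1 - h) (a / 2 ^ h) with hJ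
  have hJl : J.length = x.length + (n + 1 - h) := by rw [hJ, List.length_append, bits_length]
  set B : ℝ := 2 ^ (j + 1) / 2 ^ x.length with hB
  set W : ℝ := ((a % 2 ^ h : ℕ) : ℝ) with hW
  set θ : ℝ := 1 / 2 ^ (2 * e) with hθ
  have hBpos : 0 < B := by positivity
  have hθpos : 0 < θ := by positivity
  have hθ1 : θ ≤ 1 := by
    rw [hθ, div_le_one (by positivity)]
    exact one_le_pow₀ (by norm_num)
  have hWle : W ≤ 2 ^ h := by
    rw [hW]
    have : a % 2 ^ h ≤ 2 ^ h := (Nat.mod_lt _ (by positivity)).le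
    exact_mod_cast this
  have hW0 : 0 ≤ W := Nat.cast_nonneg _
  have hsub : ((2 ^ h - a % 2 ^ h : ℕ) : ℝ) = 2 ^ h - W := by
    rw [Nat.cast_sub (Nat.mod_lt _ (by positivity)).le]
    push_cast
    rfl
  have hpn : (2 : ℝ) ^ (n + 1) = 2 ^ (n + 1 - h) * 2 ^ h := by
    rw [← pow_add]; congr 1; omega
  have hcap : B / 2 ^ (n + 1 - h) = B / 2 ^ (n + 1) * 2 ^ h := by
    rw [hpn]
    field_simp
  have hBJ : (2 : ℝ) ^ (j + 1) / 2 ^ J.length = B / 2 ^ (n + 1) * 2 ^ h := by
    rw [← hcap, hJl, pow_add (2 : ℝ) x.length, hB]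
    field_simp
  have hc : 0 < B / 2 ^ (n + 1) := by positivity
  set c : ℝ := B / 2 ^ (n + 1) with hcdef
  have hf : trunc M j x (n + 1 - h) (a / 2 ^ h) = min (M J) (c * 2 ^ h) := by
    unfold trunc
    rw [← hB, hcap, hcdef]
  rw [hf, hsub]
  have hl1 : θ / 4 * B * (2 ^ h - W) / 2 ^ (n + 1) = θ / 4 * c * (2 ^ h - W) := by
    rw [hcdef]; ring
  have hl2 : B * W / 2 ^ (n + 1) = c * W := by rw [hcdef]; ring
  rw [hl1, hl2]
  have hap := approx_le hpq J (x.length + (n + 1))
  have hqpos : (0 : ℝ) < (q J (x.length + (n + 1)) : ℝ) + 1 := by positivity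
  have hh0 : (0 : ℝ) ≤ 2 ^ h := by positivity
  unfold tst at ht
  rw [← hJ, Bool.or_eq_true, Bool.and_eq_true, decide_eq_true_eq, decide_eq_true_eq,
    decide_eq_true_eq] at ht
  rcases ht with h1 | ⟨h1, h2⟩
  · have h3 : c * 2 ^ h ≤ M J := by
      rw [← hBJ]
      refine le_trans ?_ hap
      rw [div_le_div_iff₀ (by positivity) hqpos]
      exact_mod_cast h1
    rw [min_eq_right h3]
    have h4 : 0 ≤ c * (2 ^ h - W) := mul_nonneg hc.le (by linarith)
    nlinarith
  · have h3 : θ / 2 * (c * 2 ^ h) ≤ M J := by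
      rw [← hBJ]
      refine le_trans ?_ hap
      have e1 : θ / 2 * ((2 : ℝ) ^ (j + 1) / 2 ^ J.length) =
          2 ^ j / (2 ^ J.length * 2 ^ (2 * e)) := by
        rw [hθ, pow_succ]
        field_simp
      rw [e1, div_le_div_iff₀ (by positivity) hqpos]
      have : ((2 ^ j * (q J (x.length + (n + 1)) + 1) : ℕ) : ℝ) ≤
        ((p J (x.length + (n + 1)) * 2 ^ J.length * 2 ^ (2 * e) : ℕ) : ℝ) := by exact_mod_cast h2
      push_cast at this
      linarith
    have h4 : θ / 2 * (c * 2 ^ h) ≤ min (M J) (c * 2 ^ h) := by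
      refine le_min h3 ?_
      have : 0 ≤ c * 2 ^ h := by positivity
      nlinarith
    have h5 : W ≤ θ / 4 * 2 ^ h := by
      have h6 : W * 2 ^ (2 * e + 2) < 2 ^ h := by
        have : (((a % 2 ^ h) * 2 ^ (2 * e + 2) : ℕ) : ℝ) < ((2 ^ h : ℕ) : ℝ) :=
          Nat.cast_lt.2 h1
        rw [Nat.cast_mul, Nat.cast_pow, Nat.cast_pow, Nat.cast_ofNat] at this
        exact this
      have e2 : θ / 4 * 2 ^ h = 2 ^ h / 2 ^ (2 * e + 2) := by
        rw [hθ, pow_add]
        field_simp
        norm_num
      rw [e2, le_div_iff₀ (by positivity)]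
      exact h6.le
    have h6 : c * W ≤ c * (θ / 4 * 2 ^ h) := mul_le_mul_of_nonneg_left h5 hc.le
    have h7 : 0 ≤ θ / 4 * c * W := by positivity
    nlinarith

theorem pieces_ok {e j : ℕ} {x : List Bool} {r : ℝ} (hr1 : r ≤ 1)
    (H : ∀ y, piece p q e j x y = true → r * 2 ^ (j + 1) / 2 ^ y.length ≤ M y) (n i : ℕ)
    (h1 : (rng (tst p q e j x) n (st (tst p q e j x) n)).1 ≤ i)
    (h2 : i < (rng (tst p q e j x) n (st (tst p q e j x) n)).2) :
    r * (2 ^ (j + 1) / 2 ^ x.length) / 2 ^ (n + 1) ≤ trunc M j x (n + 1) i := by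
  have h3 : i < 2 ^ (n + 1) := lt_of_lt_of_le h2 (rng_bound n)
  have h4 := H _ ((piece_spec p q).2 ⟨n, i, rfl, h3, h1, h2⟩)
  unfold trunc
  refine le_min ?_ ?_
  · refine le_trans (le_of_eq ?_) h4
    rw [List.length_append, bits_length, pow_add (2 : ℝ) x.length]
    field_simp
  · have h5 : (0 : ℝ) ≤ (2 ^ (j + 1) / 2 ^ x.length) / 2 ^ (n + 1) := by positivity
    calc _ = r * ((2 ^ (j + 1) / 2 ^ x.length) / 2 ^ (n + 1)) := by ring
      _ ≤ 1 * ((2 ^ (j + 1) / 2 ^ x.length) / 2 ^ (n + 1)) := mul_le_mul_of_nonneg_right hr1 h5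
      _ = _ := one_mul _

end attack

theorem M_le_one {M : List Bool → ℝ} (hM : IsSemimeasure M) (y : List Bool) : M y ≤ 1 := by
  induction y using List.reverseRecOn with
  | nil => exact hM.root
  | append_singleton σ b ih =>
    have h1 := hM.split σ
    have h2 := hM.nonneg (σ ++ [false])
    have h3 := hM.nonneg (σ ++ [true])
    cases b <;> linarith

/-- the limit sequence above `x` -/
def limSeq (x : List Bool) (b : ℕ → ℕ) (i : ℕ) : Bool :=
  if i < x.length then x.getD i false else decide (b (i - x.length + 1) % 2 = 1)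

theorem seg_limSeq {x : List Bool} {b : ℕ → ℕ} (hb : ∀ m, b (m + 1) / 2 = b m) (m : ℕ) :
    seg (limSeq x b) (x.length + m) = x ++ bits m (b m) := by
  induction m with
  | zero =>
    rw [bits_zero, List.append_nil, add_zero]
    apply List.ext_getElem
    · rw [seg_length]
    · intro i h1 h2
      simp only [seg, List.getElem_map, List.getElem_range]
      unfold limSeq
      rw [if_pos h2, List.getD_eq_getElem _ _ h2]
  | succ m ih =>
    rw [← add_assoc, seg_succ, ih, bits_succ, hb m, List.append_assoc]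
    congr 2
    unfold limSeq
    rw [if_neg (by omega)]
    have e : x.length + m - x.length + 1 = m + 1 := by omega
    rw [e]

theorem ratio_contra {M : List Bool → ℝ} (hM : IsSemimeasure M) {X : ℕ → Bool}
    (hX : Filter.Tendsto (fun n => M (seg X (n + 1)) / M (seg X n)) Filter.atTop (nhds (1 / 2)))
    (h : ∀ n0, ∃ n, n0 ≤ n ∧ M (seg X (n + 3)) ≤ 4 / 49 * M (seg X n)) : False := by
  have h1 := (tendsto_order.1 hX).1 (9 / 20) (by norm_num)
  obtain ⟨N, hN⟩ := Filter.eventually_atTop.1 h1
  obtain ⟨n, hn, h2⟩ := h N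
  have hpos : ∀ k, N ≤ k → 0 < M (seg X k) ∧ 9 / 20 * M (seg X k) < M (seg X (k + 1)) := by
    intro k hk
    have h3 := hN k hk
    have h4 : 0 < M (seg X k) := by
      rcases (hM.nonneg (seg X k)).lt_or_eq with h5 | h5
      · exact h5
      · rw [← h5, div_zero] at h3
        norm_num at h3
    exact ⟨h4, by rwa [lt_div_iff₀ h4] at h3⟩
  have h3 := hpos n hn
  have h4 := hpos (n + 1) (by omega)
  have h5 := hpos (n + 2) (by omega)
  have e1 : n + 1 + 1 = n + 2 := rfl
  have e2 : n + 2 + 1 = n + 3 := rfl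
  rw [e1] at h4
  rw [e2] at h5
  linarith [h3.1, h3.2, h4.2, h5.2]

section

variable {M : List Bool → ℝ} {p q : List Bool → ℕ → ℕ}

theorem tst_false_one
    (hpq : ∀ x, Monotone (fun t => (p x t : ℝ) / (q x t + 1)) ∧
      Filter.Tendsto (fun t => (p x t : ℝ) / (q x t + 1)) Filter.atTop (nhds (M x)))
    {e j : ℕ} {x : List Bool} {b : ℕ → ℕ} {T : ℕ → ℕ → ℕ → Bool}
    (hT : T = tst p q e j x) {m : ℕ}
    (h1 : ∃ N, ∀ n, N ≤ n → m ≤ n ∧ 8 * (st T n).1 / 2 ^ (n - m) = b m)
    (h2 : ∃ N, ∀ n, N ≤ n → T (n + 1) (n + 1 - m) (16 * (st T n).1) = false) :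
    M (x ++ bits m (b m)) ≤ 2 ^ (j + 1) / 2 ^ (x.length + m) := by
  obtain ⟨N1, hN1⟩ := h1
  obtain ⟨N2, hN2⟩ := h2
  refine le_of_tendsto (hpq (x ++ bits m (b m))).2 ?_
  filter_upwards [Filter.eventually_ge_atTop (x.length + (max N1 N2) + 1)] with t ht
  obtain ⟨n, rfl⟩ : ∃ n, t = x.length + (n + 1) := ⟨t - x.length - 1, by omega⟩
  have hn1 : N1 ≤ n := by have := le_max_left N1 N2; omega
  have hn2 : N2 ≤ n := by have := le_max_right N1 N2; omega
  obtain ⟨hmn, hb⟩ := hN1 n hn1
  have hfalse := hN2 n hn2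
  have hTv : ∀ n h a, T n h a = tst p q e j x n h a := fun n h a => by rw [hT]
  rw [hTv] at hfalse
  unfold tst at hfalse
  rw [Bool.or_eq_false_iff, decide_eq_false_iff_not] at hfalse
  have e1 : n + 1 - (n + 1 - m) = m := by omega
  have e2 : 16 * (st T n).1 / 2 ^ (n + 1 - m) = b m := by
    have e3 : n + 1 - m = (n - m) + 1 := by omega
    rw [e3, pow_succ', ← Nat.div_div_eq_div_mul, ← hb]
    congr 1
    omega
  rw [e1, e2] at hfalse
  have h3 := hfalse.1
  rw [List.length_append, bits_length, not_le] at h3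
  rw [div_le_div_iff₀ (by positivity) (by positivity)]
  exact_mod_cast h3.le

theorem tst_false_two
    (hpq : ∀ x, Monotone (fun t => (p x t : ℝ) / (q x t + 1)) ∧
      Filter.Tendsto (fun t => (p x t : ℝ) / (q x t + 1)) Filter.atTop (nhds (M x)))
    {e j : ℕ} {x : List Bool} {b : ℕ → ℕ} {T : ℕ → ℕ → ℕ → Bool}
    (hT : T = tst p q e j x) {m : ℕ}
    (h1 : ∀ m, ∃ N, ∀ n, N ≤ n → m ≤ n ∧ 8 * (st T n).1 / 2 ^ (n - m) = b m)
    (h2 : ∃ N, ∀ n, N ≤ n → T (n + 1) (n + 1 - m) (16 * (st T n).1) = false)
    (h3 : b (m + (2 * e + 2)) = b m * 2 ^ (2 * e + 2)) :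
    M (x ++ bits m (b m)) ≤ 1 / 2 ^ (2 * e) * 2 ^ j / 2 ^ (x.length + m) := by
  obtain ⟨N1, hN1⟩ := h1 m
  obtain ⟨N3, hN3⟩ := h1 (m + (2 * e + 2))
  obtain ⟨N2, hN2⟩ := h2
  refine le_of_tendsto (hpq (x ++ bits m (b m))).2 ?_
  filter_upwards [Filter.eventually_ge_atTop (x.length + (max N1 (max N2 N3)) + 1)] with t ht
  obtain ⟨n, rfl⟩ : ∃ n, t = x.length + (n + 1) := ⟨t - x.length - 1, by omega⟩
  have hn1 : N1 ≤ n := by have := le_max_left N1 (max N2 N3); omega
  have hn2 : N2 ≤ n := by
    have := le_max_right N1 (max N2 N3); have := le_max_left N2 N3; omega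
  have hn3 : N3 ≤ n := by
    have := le_max_right N1 (max N2 N3); have := le_max_right N2 N3; omega
  obtain ⟨hmn, hb⟩ := hN1 n hn1
  obtain ⟨hmn3, hb3⟩ := hN3 n hn3
  have hfalse := hN2 n hn2
  have hTv : ∀ n h a, T n h a = tst p q e j x n h a := fun n h a => by rw [hT]
  rw [hTv] at hfalse
  unfold tst at hfalse
  rw [Bool.or_eq_false_iff, Bool.and_eq_false_iff, decide_eq_false_iff_not,
    decide_eq_false_iff_not] at hfalse
  have e1 : n + 1 - (n + 1 - m) = m := by omega
  have e2 : 16 * (st T n).1 / 2 ^ (n + 1 - m) = b m := by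
    have e3 : n + 1 - m = (n - m) + 1 := by omega
    rw [e3, pow_succ', ← Nat.div_div_eq_div_mul, ← hb]
    congr 1
    omega
  -- the remainder is small
  have hA : 16 * (st T n).1 % 2 ^ (n + 1 - m) * 2 ^ (2 * e + 2) < 2 ^ (n + 1 - m) := by
    obtain ⟨g, hg⟩ : ∃ g, n + 1 - m = g + (2 * e + 2) := ⟨n + 1 - m - (2 * e + 2), by omega⟩
    have e4 : 16 * (st T n).1 / 2 ^ g = b m * 2 ^ (2 * e + 2) := by
      have e5 : g = (n - (m + (2 * e + 2))) + 1 := by omega
      rw [e5, pow_succ', ← Nat.div_div_eq_div_mul, ← h3, ← hb3]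
      congr 1
      omega
    have h4 := Nat.div_add_mod (16 * (st T n).1) (2 ^ g)
    have h5 := Nat.mod_lt (16 * (st T n).1) (show 0 < 2 ^ g by positivity)
    have h6 := Nat.div_add_mod (16 * (st T n).1) (2 ^ (n + 1 - m))
    rw [e2, hg, pow_add] at h6
    rw [e4] at h4
    have h7 : 2 ^ g * (b m * 2 ^ (2 * e + 2)) = 2 ^ g * 2 ^ (2 * e + 2) * b m := by ring
    rw [h7] at h4
    rw [hg, pow_add]
    have h8 : 16 * (st T n).1 % (2 ^ g * 2 ^ (2 * e + 2)) < 2 ^ g := by omega
    exact Nat.mul_lt_mul_of_pos_right h8 (by positivity)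
  rcases hfalse.2 with h4 | h4
  · exact absurd hA h4
  rw [decide_eq_false_iff_not, e1, e2, List.length_append, bits_length, not_le] at h4
  have e6 : (1 : ℝ) / 2 ^ (2 * e) * 2 ^ j / 2 ^ (x.length + m) =
      2 ^ j / (2 ^ (x.length + m) * 2 ^ (2 * e)) := by
    field_simp
  rw [e6, div_le_div_iff₀ (by positivity) (by positivity)]
  have : ((p (x ++ bits m (b m)) (x.length + (n + 1)) * 2 ^ (x.length + m) * 2 ^ (2 * e) : ℕ) : ℝ) <
    ((2 ^ j * (q (x ++ bits m (b m)) (x.length + (n + 1)) + 1) : ℕ) : ℝ) := by exact_mod_cast h4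
  push_cast at this
  linarith

theorem frontier_mass (hM : IsSemimeasure M) {j : ℕ} {x : List Bool} {b : ℕ → ℕ}
    {T : ℕ → ℕ → ℕ → Bool} {c : ℝ} (hc : 0 ≤ c)
    (hinv : ∀ n k, k ≤ n → c * (2 ^ (j + 1) / 2 ^ x.length) * ((8 * (st T n).1 % 2 ^ k : ℕ) : ℝ) /
      2 ^ n ≤ LM (trunc M j x) n (8 * (st T n).1) k)
    (h1 : ∀ m, ∃ N, ∀ n, N ≤ n → m ≤ n ∧ 8 * (st T n).1 / 2 ^ (n - m) = b m) {m : ℕ}
    (h3 : b (m + 3) = 8 * b m + 7) :
    c * (7 / 8) * 2 ^ (j + 1) / 2 ^ (x.length + m) ≤ M (x ++ bits m (b m)) := by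
  obtain ⟨N1, hN1⟩ := h1 m
  obtain ⟨N3, hN3⟩ := h1 (m + 3)
  obtain ⟨hmn, hb⟩ := hN1 _ (le_max_left N1 N3)
  obtain ⟨hmn3, hb3⟩ := hN3 _ (le_max_right N1 N3)
  set n := max N1 N3 with hn
  set u := (st T n).1 with hu
  have hsup := trunc_super hM j x
  obtain ⟨g, hg⟩ : ∃ g, n = m + 3 + g := ⟨n - (m + 3), by omega⟩
  have e1 : n - m = g + 3 := by omega
  have e2 : n - (m + 3) = g := by omega
  rw [e1] at hb
  rw [e2, h3] at hb3
  have h4 := hinv n (g + 3) (by omega)
  have h5 := LM_add_le hsup (g + 3) n (8 * u) (by omega)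
  have h6 := hsup.nonneg n (8 * u)
  have e3 : n - (g + 3) = m := by omega
  rw [e3, hb] at h5
  have h7 : trunc M j x m (b m) ≤ M (x ++ bits m (b m)) := min_le_left _ _
  have h8 : 7 * 2 ^ g ≤ 8 * u % 2 ^ (g + 3) := by
    have k1 := Nat.div_add_mod (8 * u) (2 ^ g)
    have k2 := Nat.div_add_mod (8 * u) (2 ^ (g + 3))
    rw [hb, pow_add] at k2
    rw [hb3] at k1
    rw [pow_add]
    have k3 : 2 ^ g * (8 * b m + 7) = 2 ^ g * 2 ^ 3 * b m + 7 * 2 ^ g := by ring
    rw [k3] at k1
    omega
  have h9 : (7 : ℝ) * 2 ^ g ≤ ((8 * u % 2 ^ (g + 3) : ℕ) : ℝ) := by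
    have : ((7 * 2 ^ g : ℕ) : ℝ) ≤ ((8 * u % 2 ^ (g + 3) : ℕ) : ℝ) := Nat.cast_le.2 h8
    rw [Nat.cast_mul, Nat.cast_pow, Nat.cast_ofNat, Nat.cast_ofNat] at this
    exact this
  have h10 : c * (7 / 8) * 2 ^ (j + 1) / 2 ^ (x.length + m) =
      c * (2 ^ (j + 1) / 2 ^ x.length) * (7 * 2 ^ g) / 2 ^ n := by
    rw [hg, pow_add (2 : ℝ) x.length m, pow_add (2 : ℝ) (m + 3) g, pow_add (2 : ℝ) m 3]
    field_simp
    norm_num
  have h11 : c * (2 ^ (j + 1) / 2 ^ x.length) * (7 * 2 ^ g) / 2 ^ n ≤
      c * (2 ^ (j + 1) / 2 ^ x.length) * ((8 * u % 2 ^ (g + 3) : ℕ) : ℝ) / 2 ^ n := by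
    refine div_le_div_of_nonneg_right (mul_le_mul_of_nonneg_left h9 (by positivity)) (by positivity)
  linarith

/-- If the attack on a node is never exhausted, it produces a random sequence along which the ratio
does not converge. -/
theorem attack_fails (hM : IsUniversal M)
    (hpq : ∀ x, Monotone (fun t => (p x t : ℝ) / (q x t + 1)) ∧
      Filter.Tendsto (fun t => (p x t : ℝ) / (q x t + 1)) Filter.atTop (nhds (M x)))
    (hconv : ∀ X : ℕ → Bool, MLRandom X →
      Filter.Tendsto (fun n => M (seg X (n + 1)) / M (seg X n)) Filter.atTop (nhds (1 / 2)))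
    {e j : ℕ} {x : List Bool} {r : ℝ} (hr : 1 / 2 ^ (2 * e) ≤ r)
    (hne : ∀ n, (st (tst p q e j x) n).2 = false)
    (hinv : ∀ n k, k ≤ n → (7 * r + (1 / 2 ^ (2 * e)) / 4) / 8 * (2 ^ (j + 1) / 2 ^ x.length) *
      ((8 * (st (tst p q e j x) n).1 % 2 ^ k : ℕ) : ℝ) / 2 ^ n ≤
        LM (trunc M j x) n (8 * (st (tst p q e j x) n).1) k) : False := by
  set T := tst p q e j x with hT
  obtain ⟨b, hb1, hb0, hb2, hb3⟩ := limit hne
  set X := limSeq x b with hX
  have hseg : ∀ m, seg X (x.length + m) = x ++ bits m (b m) := seg_limSeq hb1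
  have hθ : (0 : ℝ) < 1 / 2 ^ (2 * e) := by positivity
  set θ : ℝ := 1 / 2 ^ (2 * e) with hθdef
  have hbound : ∀ n, M (seg X n) ≤ (2 ^ (j + 1) + 2 ^ x.length) / 2 ^ n := by
    intro n
    rcases Nat.lt_or_ge x.length n with h | h
    · obtain ⟨m, rfl⟩ : ∃ m, n = x.length + m := ⟨n - x.length, by omega⟩
      rw [hseg]
      refine (tst_false_one hpq hT (hb2 m) (hb3 m (by omega))).trans ?_
      refine div_le_div_of_nonneg_right ?_ (by positivity)
      have : (0 : ℝ) < 2 ^ x.length := by positivity
      linarith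
    · refine (M_le_one hM.semi _).trans ?_
      rw [le_div_iff₀ (by positivity), one_mul]
      have h1 : (2 : ℝ) ^ n ≤ 2 ^ x.length := pow_le_pow_right₀ (by norm_num) h
      have : (0 : ℝ) < 2 ^ (j + 1) := by positivity
      linarith
  have hrand := random_of_bounded hM hbound
  refine ratio_contra hM.semi (hconv X hrand) fun n0 => ?_
  obtain ⟨n, hn, hpat⟩ := pattern hM hbound
    ([true, true, true] ++ List.replicate (2 * e + 2) false) (max n0 (x.length + 1))
  have hn0 : n0 ≤ n := (le_max_left _ _).trans hn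
  have hnx : x.length + 1 ≤ n := (le_max_right _ _).trans hn
  obtain ⟨m, rfl⟩ : ∃ m, n = x.length + m := ⟨n - x.length, by omega⟩
  refine ⟨x.length + m, hn0, ?_⟩
  have hm1 : 1 ≤ m := by omega
  -- the values of the sequence
  have hlen : ([true, true, true] ++ List.replicate (2 * e + 2) false).length = 2 * e + 5 := by
    simp
  rw [hlen] at hpat
  have hval : ∀ i, i < 2 * e + 5 → b (m + i + 1) % 2 = if i < 3 then 1 else 0 := by
    intro i hi
    have h1 : (seg X (x.length + m + (2 * e + 5)))[x.length + m + i]? =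
        some (X (x.length + m + i)) := seg_get X (by omega)
    rw [hpat, List.getElem?_append_right (by rw [seg_length]; omega), seg_length] at h1
    have e1 : x.length + m + i - (x.length + m) = i := by omega
    rw [e1] at h1
    have h2 : X (x.length + m + i) = decide (b (m + i + 1) % 2 = 1) := by
      rw [hX]
      unfold limSeq
      rw [if_neg (by omega)]
      have e2 : x.length + m + i - x.length + 1 = m + i + 1 := by omega
      rw [e2]
    rw [h2] at h1
    rcases Nat.lt_or_ge i 3 with h3 | h3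
    · rw [if_pos h3]
      have h4 : ([true, true, true] ++ List.replicate (2 * e + 2) false)[i]? = some true := by
        interval_cases i <;> simp
      rw [h4] at h1
      have h5 := Option.some.inj h1
      exact of_decide_eq_true h5.symm
    · rw [if_neg (by omega)]
      have h4 : ([true, true, true] ++ List.replicate (2 * e + 2) false)[i]? = some false := by
        rw [List.getElem?_append_right (by simpa using h3)]
        rw [List.getElem?_replicate]
        rw [if_pos (by simp; omega)]
      rw [h4] at h1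
      have h5 := Option.some.inj h1
      have h6 := of_decide_eq_false h5.symm
      omega
  have hstep : ∀ i, i < 2 * e + 5 → b (m + i + 1) = 2 * b (m + i) + if i < 3 then 1 else 0 := by
    intro i hi
    have h1 := hval i hi
    have h2 := hb1 (m + i)
    omega
  have h111 : b (m + 3) = 8 * b m + 7 := by
    have k0 := hstep 0 (by omega)
    have k1 := hstep 1 (by omega)
    have k2 := hstep 2 (by omega)
    rw [if_pos (by omega)] at k0 k1 k2
    have e0 : m + 0 + 1 = m + 1 := rfl
    have e1 : m + 1 + 1 = m + 2 := rfl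
    have e2 : m + 2 + 1 = m + 3 := rfl
    rw [e0, add_zero] at k0
    rw [e1] at k1
    rw [e2] at k2
    omega
  have h000 : ∀ i, i ≤ 2 * e + 2 → b (m + 3 + i) = b (m + 3) * 2 ^ i := by
    intro i
    induction i with
    | zero => intro _; simp
    | succ i ih =>
      intro hi
      have k := hstep (3 + i) (by omega)
      rw [if_neg (by omega), add_zero] at k
      have e1 : m + (3 + i) + 1 = m + 3 + (i + 1) := by ring
      have e2 : m + (3 + i) = m + 3 + i := by ring
      rw [e1, e2, ih (by omega)] at k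
      rw [k, pow_succ]
      ring
  have hlow := tst_false_two hpq hT hb2 (hb3 (m + 3) (by omega)) (h000 _ le_rfl)
  have hc : 0 ≤ (7 * r + θ / 4) / 8 := by
    have : 0 ≤ r := hθ.le.trans hr
    positivity
  have hhigh := frontier_mass hM.semi hc hinv hb2 h111
  rw [← hseg] at hlow hhigh
  have e1 : x.length + (m + 3) = x.length + m + 3 := by ring
  rw [e1] at hlow
  refine hlow.trans ?_
  refine le_trans ?_ (mul_le_mul_of_nonneg_left hhigh (by norm_num))
  have hD : (0 : ℝ) < 2 ^ j / 2 ^ (x.length + m) := by positivity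
  have e2 : θ * 2 ^ j / 2 ^ (x.length + m + 3) = θ / 8 * (2 ^ j / 2 ^ (x.length + m)) := by
    rw [pow_add (2 : ℝ) (x.length + m) 3]
    field_simp
    norm_num
  have e3 : 4 / 49 * ((7 * r + θ / 4) / 8 * (7 / 8) * 2 ^ (j + 1) / 2 ^ (x.length + m)) =
      (7 * r + θ / 4) / 56 * (2 ^ j / 2 ^ (x.length + m)) := by
    rw [pow_succ]
    field_simp
    ring
  rw [← hθdef, e2, e3]
  refine mul_le_mul_of_nonneg_right ?_ hD.le
  linarith

end

/-- For every universal lower semicomputable semimeasure `M` (whether or not it is a universal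
mixture) there is a Martin-Löf random sequence `X` along which the conditionals
`M (X 0 ... X n) / M (X 0 ... X (n - 1))` do not converge to `1/2`. -/
theorem result : ∀ M : List Bool → ℝ, IsUniversal M →
    ∃ X : ℕ → Bool, MLRandom X ∧
      ¬ Filter.Tendsto (fun n => M (seg X (n + 1)) / M (seg X n)) Filter.atTop (nhds (1 / 2)) := by
  intro M hM
  by_contra hcon
  push Not at hcon
  obtain ⟨p, q, hp, hq, hpq⟩ := hM.lsc
  obtain ⟨c, hc, hleaf⟩ := leaves hM hp hq
  -- choice of the parameter
  obtain ⟨e, he⟩ : ∃ e : ℕ, 2 / c ≤ 2 ^ e := by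
    obtain ⟨e, he⟩ := pow_unbounded_of_one_lt (2 / c) (show (1 : ℝ) < 2 by norm_num)
    exact ⟨e, he.le⟩
  set θ : ℝ := 1 / 2 ^ (2 * e) with hθdef
  have hθ : 0 < θ := by positivity
  have hcθ : θ ≤ c / 2 ^ (e + 1) := by
    rw [div_le_iff₀ hc] at he
    rw [hθdef, div_le_div_iff₀ (by positivity) (by positivity), one_mul, pow_succ, two_mul, pow_add]
    have : (0 : ℝ) < 2 ^ e := by positivity
    nlinarith
  have hdd : (dd e : ℝ) * θ = 64 - 63 * θ := by
    unfold dd
    have h1 : 1 ≤ 2 ^ (2 * e) := Nat.one_le_two_pow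
    rw [Nat.cast_add, Nat.cast_mul, Nat.cast_sub h1]
    push_cast
    rw [hθdef]
    field_simp
    ring
  -- the induction
  have hclaim : ∀ i, i ≤ dd e → ∀ y, node p q e (dd e - i) y →
      (θ + i * (θ / 64)) * 2 ^ (dd e - i) / 2 ^ y.length ≤ M y := by
    intro i
    induction i with
    | zero =>
      intro _ y hy
      rw [Nat.sub_zero] at hy ⊢
      refine le_trans ?_ (hleaf e y hy)
      rw [Nat.cast_zero, zero_mul, add_zero, pow_add (2 : ℝ) (e + 1)]
      have h1 : c * (2 ^ dd e / (2 ^ (e + 1) * 2 ^ y.length)) =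
          c / 2 ^ (e + 1) * 2 ^ dd e / 2 ^ y.length := by
        field_simp
      rw [h1]
      refine div_le_div_of_nonneg_right ?_ (by positivity)
      exact mul_le_mul_of_nonneg_right hcθ (by positivity)
    | succ i ih =>
      intro hi x hx
      set j := dd e - (i + 1) with hj
      have hji : dd e - i = j + 1 := by omega
      have ih' := ih (by omega)
      rw [hji] at ih'
      set r : ℝ := θ + i * (θ / 64) with hr
      have hrθ : θ ≤ r := by
        rw [hr]
        have : 0 ≤ (i : ℝ) * (θ / 64) := by positivity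
        linarith
      have hr1 : r ≤ 1 := by
        have h1 : ((i + 1 : ℕ) : ℝ) ≤ (dd e : ℝ) := Nat.cast_le.2 hi
        push_cast at h1
        have h2 : ((i : ℝ) + 1) * θ ≤ dd e * θ := mul_le_mul_of_nonneg_right h1 hθ.le
        rw [hdd] at h2
        rw [hr]
        linarith
      have H : ∀ y, piece p q e j x y = true → r * 2 ^ (j + 1) / 2 ^ y.length ≤ M y :=
        fun y hy => ih' y ⟨x, hx, hy⟩
      have hsup := trunc_super hM.semi j x
      have hB : (0 : ℝ) ≤ 2 ^ (j + 1) / 2 ^ x.length := by positivity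
      have hTT : ∀ n h a, h ≤ n → a < 2 ^ n → tst p q e j x (n + 1) h a = true →
          θ / 4 * (2 ^ (j + 1) / 2 ^ x.length) * ((2 ^ h - a % 2 ^ h : ℕ) : ℝ) / 2 ^ (n + 1) ≤
          trunc M j x (n + 1 - h) (a / 2 ^ h) -
            (2 ^ (j + 1) / 2 ^ x.length) * ((a % 2 ^ h : ℕ) : ℝ) / 2 ^ (n + 1) :=
        fun n h a hh _ ht => tst_true hpq hh ht
      have hPP := pieces_ok (p := p) (q := q) (M := M) hr1 H
      by_cases hex : ∃ n, (st (tst p q e j x) n).2 = true
      · -- exhausted
        classical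
        have hn := Nat.find_spec hex
        have hmin := fun m hm => Nat.find_min hex (m := m) hm
        set n := Nat.find hex with hndef
        obtain ⟨k, hk⟩ : ∃ k, n = k + 1 := by
          rcases Nat.eq_zero_or_pos n with h0 | h0
          · rw [h0] at hn
            exact absurd hn (by simp [st])
          · exact ⟨n - 1, by omega⟩
        have hkf := hmin k (by omega)
        rw [Bool.not_eq_true] at hkf
        have hst : st (tst p q e j x) k = ((st (tst p q e j x) k).1, false) := by
          rw [← hkf]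
        rw [hk] at hn
        have h1 := exhausted hsup hB hθ.le (by linarith) hTT hPP hst hn
        have h2 : trunc M j x 0 0 ≤ M x := by
          refine (min_le_left _ _).trans (le_of_eq ?_)
          rw [bits_zero, List.append_nil]
        refine le_trans (le_of_eq ?_) (h1.trans h2)
        rw [hr, pow_succ]
        push_cast
        field_simp
        ring
      · -- never exhausted
        exfalso
        push Not at hex
        have hne : ∀ n, (st (tst p q e j x) n).2 = false := fun n =>
          Bool.eq_false_iff.2 (hex n)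
        refine attack_fails hM hpq hcon hrθ hne fun n k hk => ?_
        have hst : st (tst p q e j x) n = ((st (tst p q e j x) n).1, false) := by
          rw [← hne n]
        exact (invariant hsup hB hθ.le (by linarith) hTT hPP n _ hst).2 k hk
  have hfin := hclaim (dd e) le_rfl [] (by rw [Nat.sub_self]; rfl)
  rw [Nat.sub_self] at hfin
  have h1 := hM.semi.root
  simp only [pow_zero, List.length_nil, mul_one, div_one] at hfin
  have h2 : (dd e : ℝ) * (θ / 64) = 1 - 63 / 64 * θ := by
    have : (dd e : ℝ) * (θ / 64) = (dd e : ℝ) * θ / 64 := by ring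
    rw [this, hdd]
    ring
  rw [h2] at hfin
  linarith

end Pool.Agent.Results.MP_b38472_lc.NoConvergence
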